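import Mathlib

set_option autoImplicit false

/-!
# A lattice lemma for maximal stable orders

`o` is a Dedekind domain with fraction field `K`, `H` an `o`-algebra with an `o`-algebra
endomorphism `σ` with `σ (σ z) = z`, and `O` is a subalgebra of `H`, finitely generated as a module,
which is maximal among the `σ`-stable ones.  If `I` is a finitely generated `σ`-stable right
`O`-module containing `O`, and `ℓ : H → K` is linear, `σ`-invariant, such that `I ∩ ker ℓ ⊆ O`, then
`I = O`.
-/

namespace Pool.Agent.V11280.TE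

open Submodule

section

variable {o H : Type*} [CommRing o] [Ring H] [Algebra o H]

/-- between an ideal with residue field quotient and the order there is nothing -/
theorem between (O : Subalgebra o H) (M : Submodule o H) (P : Ideal o)
    [P.IsMaximal] (hP : ∀ r ∈ P, algebraMap o H r ∈ M)
    (hsum : ∀ z ∈ O, ∃ r : o, z - algebraMap o H r ∈ M)
    (X : Submodule o H) (h1 : M ≤ X) (h2 : X ≤ Subalgebra.toSubmodule O) :
    X = M ∨ X = Subalgebra.toSubmodule O := by
  by_cases h : X ≤ M
  · exact Or.inl (le_antisymm h h1)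
  · right
    refine le_antisymm h2 ?_
    obtain ⟨z, hzX, hzM⟩ := SetLike.not_le_iff_exists.mp h
    obtain ⟨r, hr⟩ := hsum z (h2 hzX)
    have hrX : algebraMap o H r ∈ X := by
      have := X.sub_mem hzX (h1 hr)
      simpa using this
    have hrP : r ∉ P := by
      intro hrP
      apply hzM
      have := M.add_mem hr (hP r hrP)
      simpa using this
    have h1X : (1 : H) ∈ X := by
      have hmax : P.IsMaximal := inferInstance
      obtain ⟨s, hs⟩ := hmax.exists_inv hrP
      obtain ⟨i, hi, hsi⟩ := hs
      have e : (1 : H) = s • algebraMap o H r + algebraMap o H i := by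
        rw [Algebra.smul_def, ← map_mul, ← map_add, hsi, map_one]
      rw [e]
      exact X.add_mem (X.smul_mem _ hrX) (h1 (hP i hi))
    intro w hw
    obtain ⟨t, ht⟩ := hsum w hw
    have : w = t • (1 : H) + (w - algebraMap o H t) := by
      rw [Algebra.smul_def, mul_one]; abel
    rw [this]
    exact X.add_mem (X.smul_mem _ h1X) (h1 ht)

theorem fg_of_smul_le [IsNoetherianRing o] {S X : Submodule o H} (hS : S.FG) (c : o)
    (hc : ∀ z : H, c • z = 0 → z = 0) (hX : ∀ x ∈ X, c • x ∈ S) : X.FG := by
  have hN : IsNoetherian o S := isNoetherian_of_fg_of_noetherian S hS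
  let f : X →ₗ[o] S := ((LinearMap.lsmul o H c).comp X.subtype).codRestrict S
    (fun x => hX x x.2)
  have hf : Function.Injective f := by
    rw [injective_iff_map_eq_zero]
    intro x hx
    have : c • (x : H) = 0 := congrArg Subtype.val hx
    exact Subtype.ext (hc _ this)
  have : IsNoetherian o X := isNoetherian_of_injective f hf
  exact (isNoetherian_submodule.mp this) X le_rfl

/-- left colon `{z | z Y ⊆ X}` -/
def lcol (X Y : Submodule o H) : Submodule o H where
  carrier := {z | ∀ y ∈ Y, z * y ∈ X}
  add_mem' {a b} ha hb y hy := by rw [add_mul]; exact X.add_mem (ha y hy) (hb y hy)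
  zero_mem' y _ := by rw [zero_mul]; exact X.zero_mem
  smul_mem' c a ha y hy := by rw [smul_mul_assoc]; exact X.smul_mem c (ha y hy)

/-- right colon `{z | Y z ⊆ X}` -/
def rcol (X Y : Submodule o H) : Submodule o H where
  carrier := {z | ∀ y ∈ Y, y * z ∈ X}
  add_mem' {a b} ha hb y hy := by rw [mul_add]; exact X.add_mem (ha y hy) (hb y hy)
  zero_mem' y _ := by rw [mul_zero]; exact X.zero_mem
  smul_mem' c a ha y hy := by rw [mul_smul_comm]; exact X.smul_mem c (ha y hy)

theorem mem_lcol {X Y : Submodule o H} {z : H} : z ∈ lcol X Y ↔ ∀ y ∈ Y, z * y ∈ X := Iff.rfl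

theorem mem_rcol {X Y : Submodule o H} {z : H} : z ∈ rcol X Y ↔ ∀ y ∈ Y, y * z ∈ X := Iff.rfl

theorem lcol_mul_le (X Y : Submodule o H) : lcol X Y * Y ≤ X :=
  Submodule.mul_le.mpr fun _ hz _ hy => hz _ hy

theorem mul_rcol_le (X Y : Submodule o H) : Y * rcol X Y ≤ X :=
  Submodule.mul_le.mpr fun _ hy _ hz => hz _ hy

/-- the left order of `Y` -/
def lord (Y : Submodule o H) : Subalgebra o H where
  carrier := {z | ∀ y ∈ Y, z * y ∈ Y}
  mul_mem' {a b} ha hb y hy := by rw [mul_assoc]; exact ha _ (hb y hy)
  add_mem' {a b} ha hb y hy := by rw [add_mul]; exact Y.add_mem (ha y hy) (hb y hy)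
  algebraMap_mem' c y hy := by rw [← Algebra.smul_def]; exact Y.smul_mem c hy

/-- the right order of `Y` -/
def rord (Y : Submodule o H) : Subalgebra o H where
  carrier := {z | ∀ y ∈ Y, y * z ∈ Y}
  mul_mem' {a b} ha hb y hy := by rw [← mul_assoc]; exact hb _ (ha y hy)
  add_mem' {a b} ha hb y hy := by rw [mul_add]; exact Y.add_mem (ha y hy) (hb y hy)
  algebraMap_mem' c y hy := by
    rw [← Algebra.commutes, ← Algebra.smul_def]; exact Y.smul_mem c hy

theorem mem_lord {Y : Submodule o H} {z : H} : z ∈ lord Y ↔ ∀ y ∈ Y, z * y ∈ Y := Iff.rfl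

theorem mem_rord {Y : Submodule o H} {z : H} : z ∈ rord Y ↔ ∀ y ∈ Y, y * z ∈ Y := Iff.rfl

/-- The key lemma: an order maximal among the `σ`-stable ones has no `σ`-stable quotient `o / P`
coming from a module `O + o y`. -/
theorem no_char [IsNoetherianRing o] (σ : H →ₐ[o] H) (hσσ : ∀ z, σ (σ z) = z)
    (O : Subalgebra o H) (hOfg : (Subalgebra.toSubmodule O).FG)
    (hOσ : ∀ z ∈ O, σ z ∈ O)
    (hmax : ∀ R : Subalgebra o H, O ≤ R → (Subalgebra.toSubmodule R).FG → (∀ z ∈ R, σ z ∈ R) →
      R ≤ O)
    (P : Ideal o) [P.IsMaximal] (c : o) (hcP : c ∈ P) (hc : ∀ z : H, c • z = 0 → z = 0)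
    (y : H) (hy : y ∉ O) (hPy : ∀ r ∈ P, r • y ∈ O)
    (hsum : ∀ z ∈ O, ∃ r : o, y * z - r • y ∈ O) (hσy : σ y - y ∈ O)
    (a b x : H) (ha : a ∈ O) (hb : b ∈ O) (hab : (a * b - b * a) * x = 1) : False := by
  set S : Submodule o H := Subalgebra.toSubmodule O with hS
  have hSS : S * S = S := by
    apply le_antisymm
    · exact Submodule.mul_le.mpr fun u hu v hv => O.mul_mem hu hv
    · intro u hu
      have := Submodule.mul_mem_mul hu (show (1 : H) ∈ S from O.one_mem)
      rwa [mul_one] at this
  -- the ideal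
  let M : Submodule o H :=
    { carrier := {z | z ∈ O ∧ y * z ∈ O}
      add_mem' := fun {u v} hu hv => ⟨O.add_mem hu.1 hv.1, by
        rw [mul_add]; exact O.add_mem hu.2 hv.2⟩
      zero_mem' := ⟨O.zero_mem, by rw [mul_zero]; exact O.zero_mem⟩
      smul_mem' := fun r u hu => ⟨O.smul_mem hu.1 r, by
        rw [mul_smul_comm]; exact O.smul_mem hu.2 r⟩ }
  have hM : ∀ z, z ∈ M ↔ z ∈ O ∧ y * z ∈ O := fun z => Iff.rfl
  have hMS : M ≤ S := fun z hz => hz.1
  have hPM : ∀ r ∈ P, algebraMap o H r ∈ M := by
    intro r hr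
    refine ⟨O.algebraMap_mem r, ?_⟩
    rw [← Algebra.commutes, ← Algebra.smul_def]
    exact hPy r hr
  have hsumM : ∀ z ∈ O, ∃ r : o, z - algebraMap o H r ∈ M := by
    intro z hz
    obtain ⟨r, hr⟩ := hsum z hz
    refine ⟨r, O.sub_mem hz (O.algebraMap_mem r), ?_⟩
    rw [mul_sub, ← Algebra.commutes, ← Algebra.smul_def]
    exact hr
  have h1M : (1 : H) ∉ M := by
    intro h
    apply hy
    have := h.2
    rwa [mul_one] at this
  have hMR : ∀ z ∈ M, ∀ w ∈ O, z * w ∈ M := by
    intro z hz w hw
    refine ⟨O.mul_mem hz.1 hw, ?_⟩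
    rw [← mul_assoc]
    exact O.mul_mem hz.2 hw
  have hML : ∀ w ∈ O, ∀ z ∈ M, w * z ∈ M := by
    intro w hw z hz
    refine ⟨O.mul_mem hw hz.1, ?_⟩
    obtain ⟨r, hr⟩ := hsum w hw
    have : y * (w * z) = (y * w - r • y) * z + r • (y * z) := by
      rw [sub_mul, smul_mul_assoc, mul_assoc]; abel
    rw [this]
    exact O.add_mem (O.mul_mem hr hz.1) (O.smul_mem hz.2 r)
  have hMσ : ∀ z ∈ M, σ z ∈ M := by
    intro z hz
    refine ⟨hOσ z hz.1, ?_⟩
    have e : y * σ z = σ (σ y * z) := by rw [map_mul, hσσ]
    have e2 : σ y * z = (σ y - y) * z + y * z := by rw [sub_mul]; abel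
    rw [e, e2]
    exact hOσ _ (O.add_mem (O.mul_mem hσy hz.1) hz.2)
  have hbt := between O M P hPM hsumM
  -- the inverse
  set N : Submodule o H := lcol S M with hN
  have hyN : y ∈ N := fun z hz => hz.2
  have hON : S ≤ N := fun w hw z hz => (hML w hw z hz).1
  have h1N : (1 : H) ∈ N := hON O.one_mem
  have hNR : ∀ z ∈ N, ∀ w ∈ O, z * w ∈ N := by
    intro z hz w hw m hm
    rw [mul_assoc]
    exact hz _ (hML w hw m hm)
  have hNL : ∀ w ∈ O, ∀ z ∈ N, w * z ∈ N := by
    intro w hw z hz m hm
    rw [mul_assoc]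
    exact O.mul_mem hw (hz m hm)
  have hNσ : ∀ z ∈ N, σ z ∈ N := by
    intro z hz m hm
    have e : σ z * m = σ (z * σ m) := by rw [map_mul, hσσ]
    rw [e]
    exact hOσ _ (hz _ (hMσ m hm))
  have hNfg : N.FG := by
    refine fg_of_smul_le hOfg c hc fun z hz => ?_
    have := hz _ (hPM c hcP)
    rwa [← Algebra.commutes, ← Algebra.smul_def] at this
  have hfg_le : ∀ X : Submodule o H, X ≤ N → X.FG := by
    intro X hX
    have : IsNoetherian o N := isNoetherian_of_fg_of_noetherian N hNfg
    exact (isNoetherian_submodule.mp this) X hX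
  have hSM : S * M = M := by
    apply le_antisymm
    · exact Submodule.mul_le.mpr hML
    · intro u hu
      have := Submodule.mul_mem_mul (show (1 : H) ∈ S from O.one_mem) hu
      rwa [one_mul] at this
  have hMS' : M * S = M := by
    apply le_antisymm
    · exact Submodule.mul_le.mpr hMR
    · intro u hu
      have := Submodule.mul_mem_mul hu (show (1 : H) ∈ S from O.one_mem)
      rwa [mul_one] at this
  have hSN : S * N = N := by
    apply le_antisymm
    · exact Submodule.mul_le.mpr hNL
    · intro u hu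
      have := Submodule.mul_mem_mul (show (1 : H) ∈ S from O.one_mem) hu
      rwa [one_mul] at this
  have hNS : N * S = N := by
    apply le_antisymm
    · exact Submodule.mul_le.mpr hNR
    · intro u hu
      have := Submodule.mul_mem_mul hu (show (1 : H) ∈ S from O.one_mem)
      rwa [mul_one] at this
  have hM_le_NM : M ≤ N * M := by
    intro u hu
    have := Submodule.mul_mem_mul h1N hu
    rwa [one_mul] at this
  have hM_le_MN : M ≤ M * N := by
    intro u hu
    have := Submodule.mul_mem_mul hu h1N
    rwa [mul_one] at this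
  -- `N M = O`
  have hNM : N * M = S := by
    rcases hbt (N * M) hM_le_NM (lcol_mul_le S M) with h | h
    · exfalso
      have hR : lord M ≤ O := by
        refine hmax (lord M) (fun w hw z hz => hML w hw z hz) ?_ ?_
        · exact hfg_le _ fun z hz m hm => hMS (hz m hm)
        · intro z hz m hm
          have e : σ z * m = σ (z * σ m) := by rw [map_mul, hσσ]
          rw [e]
          exact hMσ _ (hz _ (hMσ m hm))
      apply hy
      apply hR
      intro m hm
      rw [← h]
      exact Submodule.mul_mem_mul hyN hm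
    · exact h
  -- `M N ⊆ O`
  have hMN_le : M * N ≤ S := by
    let R : Subalgebra o H :=
      { carrier := {z | ∃ w ∈ O, ∃ v ∈ M * N, z = w + v}
        mul_mem' := by
          rintro _ _ ⟨w, hw, v, hv, rfl⟩ ⟨w', hw', v', hv', rfl⟩
          refine ⟨w * w', O.mul_mem hw hw', w * v' + v * w' + v * v', ?_, by noncomm_ring⟩
          have h1 : w * v' ∈ M * N := by
            have : w * v' ∈ S * (M * N) := Submodule.mul_mem_mul hw hv'
            rwa [← mul_assoc, hSM] at this
          have h2 : v * w' ∈ M * N := by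
            have : v * w' ∈ (M * N) * S := Submodule.mul_mem_mul hv hw'
            rwa [mul_assoc, hNS] at this
          have h3 : v * v' ∈ M * N := by
            have : v * v' ∈ (M * N) * (M * N) := Submodule.mul_mem_mul hv hv'
            rwa [mul_assoc, ← mul_assoc N M N, hNM, hSN] at this
          exact add_mem (add_mem h1 h2) h3
        add_mem' := by
          rintro _ _ ⟨w, hw, v, hv, rfl⟩ ⟨w', hw', v', hv', rfl⟩
          exact ⟨w + w', O.add_mem hw hw', v + v', add_mem hv hv', by abel⟩
        algebraMap_mem' := fun r => ⟨algebraMap o H r, O.algebraMap_mem r, 0, zero_mem _, by simp⟩ }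
    have hMN_N : M * N ≤ N := by
      refine (mul_le_mul_left hMS N).trans ?_
      rw [hSN]
    have hR : R ≤ O := by
      refine hmax R (fun w hw => ⟨w, hw, 0, zero_mem _, by simp⟩) ?_ ?_
      · refine hfg_le _ ?_
        rintro z ⟨w, hw, v, hv, rfl⟩
        exact N.add_mem (hON hw) (hMN_N hv)
      · rintro z ⟨w, hw, v, hv, rfl⟩
        refine ⟨σ w, hOσ w hw, σ v, ?_, by rw [map_add]⟩
        have hle : (M * N).map σ.toLinearMap ≤ M * N := by
          rw [Submodule.map_mul]
          refine mul_le_mul' ?_ ?_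
          · rintro _ ⟨m, hm, rfl⟩
            exact hMσ m hm
          · rintro _ ⟨m, hm, rfl⟩
            exact hNσ m hm
        exact hle ⟨v, hv, rfl⟩
    intro v hv
    exact hR ⟨0, O.zero_mem, v, hv, by simp⟩
  have hMN : M * N = S := by
    rcases hbt (M * N) hM_le_MN hMN_le with h | h
    · exfalso
      have hR : rord M ≤ O := by
        refine hmax (rord M) (fun w hw z hz => hMR z hz w hw) ?_ ?_
        · refine hfg_le _ fun z hz => ?_
          -- `z ∈ rord M`, so `M z ⊆ M`, `z ∈ O z = N M z ⊆ N M = O`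
          have hz1 : z ∈ S := by
            have h2 : S * Submodule.span o {z} ≤ S := by
              rw [← hNM, mul_assoc]
              refine mul_le_mul_right ?_ N
              rw [Submodule.mul_le]
              intro m hm w hw
              rw [Submodule.mem_span_singleton] at hw
              obtain ⟨r, rfl⟩ := hw
              rw [mul_smul_comm]
              exact M.smul_mem r (hz m hm)
            have h3 : (1 : H) * z ∈ S * Submodule.span o {z} :=
              Submodule.mul_mem_mul (show (1 : H) ∈ S from O.one_mem) (Submodule.mem_span_singleton_self z)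
            rw [one_mul] at h3
            exact h2 h3
          exact hON hz1
        · intro z hz m hm
          have e : m * σ z = σ (σ m * z) := by rw [map_mul, hσσ]
          rw [e]
          exact hMσ _ (hz _ (hMσ m hm))
      apply hy
      apply hR
      intro m hm
      rw [← h]
      exact Submodule.mul_mem_mul hm hyN
    · exact h
  -- `M / M²` is simple
  have hM2 : M * M ≤ M := Submodule.mul_le.mpr fun u hu v hv => hMR u hu v hv.1
  have hM2ne : M * M ≠ M := by
    intro h
    apply h1M
    have : N * (M * M) = N * M := by rw [h]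
    rw [← mul_assoc, hNM, hSM] at this
    rw [this]
    exact O.one_mem
  have hbt2 : ∀ X : Submodule o H, M * M ≤ X → X ≤ M → X = M * M ∨ X = M := by
    intro X h1 h2
    have hOX : S * X = X := by
      apply le_antisymm
      · rw [Submodule.mul_le]
        intro w hw z hz
        obtain ⟨r, hr⟩ := hsumM w hw
        have e : w * z = (w - algebraMap o H r) * z + r • z := by
          rw [sub_mul, Algebra.smul_def]; abel
        rw [e]
        exact X.add_mem (h1 (Submodule.mul_mem_mul hr (h2 hz))) (X.smul_mem r hz)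
      · intro u hu
        have := Submodule.mul_mem_mul (show (1 : H) ∈ S from O.one_mem) hu
        rwa [one_mul] at this
    have hNX1 : M ≤ N * X := by
      have : N * (M * M) ≤ N * X := mul_le_mul_right h1 N
      rwa [← mul_assoc, hNM, hSM] at this
    have hNX2 : N * X ≤ S := by
      have : N * X ≤ N * M := mul_le_mul_right h2 N
      rwa [hNM] at this
    have hMNX : M * (N * X) = X := by rw [← mul_assoc, hMN, hOX]
    rcases hbt (N * X) hNX1 hNX2 with h | h
    · left; rw [← hMNX, h]
    · right; rw [← hMNX, h, hMS']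
  obtain ⟨ϖ, hϖM, hϖ2⟩ : ∃ ϖ ∈ M, ϖ ∉ M * M := by
    by_contra hcon
    push Not at hcon
    exact hM2ne (le_antisymm hM2 hcon)
  have hMgen : M = Submodule.span o {ϖ} ⊔ M * M := by
    have h1 : Submodule.span o {ϖ} ⊔ M * M ≤ M :=
      sup_le (by rw [Submodule.span_singleton_le_iff_mem]; exact hϖM) hM2
    rcases hbt2 _ le_sup_right h1 with h | h
    · exfalso
      apply hϖ2
      rw [← h]
      exact Submodule.mem_sup_left (Submodule.mem_span_singleton_self ϖ)
    · exact h.symm
  have hpow : ∀ n : ℕ, M ^ (n + 1) ≤ Submodule.span o {ϖ ^ (n + 1)} ⊔ M ^ (n + 2) := by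
    intro n
    induction n with
    | zero =>
      rw [zero_add, pow_one, pow_one, pow_two]
      exact hMgen.le
    | succ n ih =>
      have h1 : M ^ (n + 1 + 1) ≤ (Submodule.span o {ϖ ^ (n + 1)} ⊔ M ^ (n + 2)) * M := by
        rw [pow_succ M (n + 1)]
        exact mul_le_mul_left ih M
      refine h1.trans ?_
      rw [Submodule.sup_mul]
      refine sup_le ?_ ?_
      · have h2 : Submodule.span o {ϖ ^ (n + 1)} * M ≤
            Submodule.span o {ϖ ^ (n + 1)} * (Submodule.span o {ϖ} ⊔ M * M) :=
          mul_le_mul_right hMgen.le _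
        refine h2.trans ?_
        rw [Submodule.mul_sup]
        refine sup_le ?_ ?_
        · rw [Submodule.span_mul_span, Set.singleton_mul_singleton, ← pow_succ]
          exact le_sup_left
        · refine le_trans ?_ le_sup_right
          have h3 : Submodule.span o {ϖ ^ (n + 1)} ≤ M ^ (n + 1) := by
            rw [Submodule.span_singleton_le_iff_mem]
            exact Submodule.pow_mem_pow M hϖM (n + 1)
          calc Submodule.span o {ϖ ^ (n + 1)} * (M * M) ≤ M ^ (n + 1) * (M * M) :=
                mul_le_mul_left h3 _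
            _ = M ^ (n + 1 + 2) := by rw [pow_add M (n + 1) 2, pow_two]
      · rw [← pow_succ]
        exact le_sup_right
  have hdec : ∀ n : ℕ, ∀ z ∈ O, ∃ p ∈ Algebra.adjoin o {ϖ}, z - p ∈ M ^ (n + 1) := by
    intro n
    induction n with
    | zero =>
      intro z hz
      obtain ⟨r, hr⟩ := hsumM z hz
      refine ⟨algebraMap o H r, Subalgebra.algebraMap_mem _ r, ?_⟩
      rwa [zero_add, pow_one]
    | succ n ih =>
      intro z hz
      obtain ⟨p, hp, hzp⟩ := ih z hz
      have := hpow n hzp
      rw [Submodule.mem_sup] at this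
      obtain ⟨s, hs, t, ht, hst⟩ := this
      rw [Submodule.mem_span_singleton] at hs
      obtain ⟨r, rfl⟩ := hs
      refine ⟨p + r • ϖ ^ (n + 1), ?_, ?_⟩
      · refine add_mem hp (Subalgebra.smul_mem _ (pow_mem (Algebra.self_mem_adjoin_singleton _ _) _) r)
      · have : z - (p + r • ϖ ^ (n + 1)) = t := by
          rw [← sub_sub, ← hst]; abel
        rw [this]
        exact ht
  have hadj : Algebra.adjoin o {ϖ} ≤ O := by
    rw [Algebra.adjoin_le_iff]
    rintro _ rfl
    exact hϖM.1
  have hSMn : ∀ n : ℕ, S * M ^ (n + 1) = M ^ (n + 1) := by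
    intro n
    rw [pow_succ', ← mul_assoc, hSM]
  have hMnS : ∀ n : ℕ, M ^ (n + 1) * S = M ^ (n + 1) := by
    intro n
    rw [pow_succ, mul_assoc, hMS']
  have hMnle : ∀ n : ℕ, M ^ (n + 1) ≤ S := by
    intro n
    induction n with
    | zero => rw [zero_add, pow_one]; exact hMS
    | succ n ih =>
      rw [pow_succ']
      refine (mul_le_mul_right ih M).trans ?_
      rw [hMS']
      exact hMS
  have hcomm : ∀ n : ℕ, a * b - b * a ∈ M ^ (n + 1) := by
    intro n
    obtain ⟨p, hp, hap⟩ := hdec n a ha
    obtain ⟨q, hq, hbq⟩ := hdec n b hb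
    have hpq : p * q = q * p := by
      have h1 : Commute ϖ q := Algebra.commute_of_mem_adjoin_self hq
      exact (Algebra.commute_of_mem_adjoin_singleton_of_commute hp h1.symm).symm
    set m := a - p with hm
    set m' := b - q with hm'
    have ea : a = p + m := by rw [hm]; abel
    have eb : b = q + m' := by rw [hm']; abel
    have key : a * b - b * a = (p * m' - m' * p) + (m * q - q * m) + (m * m' - m' * m) := by
      rw [ea, eb]
      have : (p + m) * (q + m') - (q + m') * (p + m) =
        (p * q - q * p) + (p * m' - m' * p) + (m * q - q * m) + (m * m' - m' * m) := by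
        noncomm_ring
      rw [this, hpq]
      noncomm_ring
    have l1 : ∀ u ∈ O, ∀ v ∈ M ^ (n + 1), u * v ∈ M ^ (n + 1) := by
      intro u hu v hv
      rw [← hSMn n]
      exact Submodule.mul_mem_mul hu hv
    have l2 : ∀ u ∈ O, ∀ v ∈ M ^ (n + 1), v * u ∈ M ^ (n + 1) := by
      intro u hu v hv
      rw [← hMnS n]
      exact Submodule.mul_mem_mul hv hu
    rw [key]
    refine add_mem (add_mem (sub_mem ?_ ?_) (sub_mem ?_ ?_)) (sub_mem ?_ ?_)
    · exact l1 p (hadj hp) _ hbq
    · exact l2 p (hadj hp) _ hbq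
    · exact l2 q (hadj hq) _ hap
    · exact l1 q (hadj hq) _ hap
    · exact l1 _ (hMnle n hap) _ hbq
    · exact l1 _ (hMnle n hbq) _ hap
  -- `N ^ n ⊆ O x`
  have hNn : ∀ n : ℕ, N ^ n * S * M ^ n = S := by
    intro n
    induction n with
    | zero => rw [pow_zero, pow_zero, one_mul, mul_one]
    | succ n ih =>
      calc N ^ (n + 1) * S * M ^ (n + 1) = N ^ n * (N * S * M) * M ^ n := by
            rw [pow_succ, pow_succ']; simp only [mul_assoc]
        _ = N ^ n * S * M ^ n := by rw [hNS, hNM]
        _ = S := ih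
  have hMn' : ∀ n : ℕ, M ^ n * S * N ^ n = S := by
    intro n
    induction n with
    | zero => rw [pow_zero, pow_zero, one_mul, mul_one]
    | succ n ih =>
      calc M ^ (n + 1) * S * N ^ (n + 1) = M ^ n * (M * S * N) * N ^ n := by
            rw [pow_succ, pow_succ']; simp only [mul_assoc]
        _ = M ^ n * S * N ^ n := by rw [hMS', hMN]
        _ = S := ih
  have hNnS : ∀ n : ℕ, S * N ^ (n + 1) = N ^ (n + 1) := by
    intro n
    rw [pow_succ', ← mul_assoc, hSN]
  have hNnS' : ∀ n : ℕ, N ^ (n + 1) * S = N ^ (n + 1) := by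
    intro n
    rw [pow_succ, mul_assoc, hNS]
  set g : H →ₗ[o] H := LinearMap.mulRight o x with hg
  set T : Submodule o H := S.map g with hT
  have hTfg : T.FG := hOfg.map g
  have hNT : ∀ n : ℕ, N ^ (n + 1) ≤ T := by
    intro n z hz
    refine ⟨z * (a * b - b * a), ?_, ?_⟩
    · rw [← hNn (n + 1), hNnS']
      exact Submodule.mul_mem_mul hz (hcomm n)
    · rw [hg, LinearMap.mulRight_apply, mul_assoc, hab, mul_one]
  have hTN : IsNoetherian o T := isNoetherian_of_fg_of_noetherian T hTfg
  have hmono : Monotone fun n : ℕ => (N ^ (n + 1)).comap T.subtype := by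
    apply monotone_nat_of_le_succ
    intro n
    apply Submodule.comap_mono
    intro z hz
    rw [pow_succ N (n + 1)]
    have := Submodule.mul_mem_mul hz h1N
    rwa [mul_one] at this
  obtain ⟨n, hn⟩ := monotone_stabilizes_iff_noetherian.mpr hTN ⟨_, hmono⟩
  have hst : N ^ (n + 1) = N ^ (n + 2) := by
    have h1 := hn (n + 1) (Nat.le_succ n)
    simp only [OrderHom.coe_mk] at h1
    have h2 := congrArg (Submodule.map T.subtype) h1
    rw [Submodule.map_comap_subtype, Submodule.map_comap_subtype, inf_eq_right.mpr (hNT n),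
      inf_eq_right.mpr (hNT (n + 1))] at h2
    exact h2
  have : S = N := by
    have e1 : M ^ (n + 1) * S * N ^ (n + 2) = N := by
      rw [pow_succ N (n + 1), ← mul_assoc, hMn', hSN]
    rw [← hst, hMn'] at e1
    exact e1
  apply hy
  have := this ▸ hyN
  exact this

end

end Pool.Agent.V11280.TE
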