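import Mathlib
import Pool.Agent.V11280.TE.Simple

set_option autoImplicit false

namespace Pool.Agent.V11280.TE

open Submodule
open scoped nonZeroDivisors

section

variable {R K : Type*} [CommRing R] [IsDedekindDomain R] [Field K] [Algebra R K]
  [IsFractionRing R K]

theorem dim_one (A : Submodule R K) (hA : A.FG) (P : Ideal R) [P.IsMaximal] (hP0 : P ≠ ⊥)
    (s t : K) (ht : ∀ p ∈ P, p • t ∈ A) (hs : ∀ p ∈ P, p • s ∈ A) (ht' : t ∉ A) :
    ∃ r : R, s - r • t ∈ A := by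
  classical
  have ht0 : t ≠ 0 := by
    rintro rfl
    exact ht' A.zero_mem
  let AF : FractionalIdeal R⁰ K := ⟨A, FractionalIdeal.isFractional_of_fg hA⟩
  have hAF : ∀ x, x ∈ AF ↔ x ∈ A := fun x => Iff.rfl
  let B : FractionalIdeal R⁰ K := AF ⊔ FractionalIdeal.spanSingleton R⁰ t
  have hAB : AF ≤ B := le_sup_left
  have htB : t ∈ B := by
    have : FractionalIdeal.spanSingleton R⁰ t ≤ B := le_sup_right
    exact this (FractionalIdeal.mem_spanSingleton_self _ t)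
  have hB0 : B ≠ 0 := by
    intro h
    rw [h] at htB
    exact ht0 (by simpa using htB)
  have hP0' : (P : FractionalIdeal R⁰ K) ≠ 0 := by
    simpa using hP0
  have hPB : (P : FractionalIdeal R⁰ K) * B ≤ AF := by
    rw [FractionalIdeal.mul_le]
    intro p hp w hw
    rw [FractionalIdeal.mem_coeIdeal] at hp
    obtain ⟨p, hp, rfl⟩ := hp
    have hw' : w ∈ AF + FractionalIdeal.spanSingleton R⁰ t := hw
    rw [FractionalIdeal.mem_add] at hw'
    obtain ⟨x, hx, y, hy, rfl⟩ := hw'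
    rw [FractionalIdeal.mem_spanSingleton] at hy
    obtain ⟨z, rfl⟩ := hy
    rw [hAF, ← Algebra.smul_def, smul_add, smul_comm p z t]
    exact A.add_mem (A.smul_mem p hx) (A.smul_mem z (ht p hp))
  have hABne : AF ≠ B := by
    intro h
    apply ht'
    rw [← hAF, h]
    exact htB
  have hABi : AF * B⁻¹ ≤ 1 := by
    calc AF * B⁻¹ ≤ B * B⁻¹ := mul_le_mul_left hAB _
      _ = 1 := mul_inv_cancel₀ hB0
  obtain ⟨Q, hQ⟩ := FractionalIdeal.le_one_iff_exists_coeIdeal.mp hABi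
  have hPQ : P ≤ Q := by
    rw [← FractionalIdeal.coeIdeal_le_coeIdeal K, hQ]
    calc (P : FractionalIdeal R⁰ K) = P * B * B⁻¹ := by
          rw [mul_assoc, mul_inv_cancel₀ hB0, mul_one]
      _ ≤ AF * B⁻¹ := mul_le_mul_left hPB _
  have hAeq : AF = Q * B := by
    rw [hQ, mul_assoc, inv_mul_cancel₀ hB0, mul_one]
  have hQtop : Q ≠ ⊤ := by
    rintro rfl
    apply hABne
    rw [hAeq, FractionalIdeal.coeIdeal_top, one_mul]
  have hQP : Q = P := ((inferInstance : P.IsMaximal).eq_of_le hQtop hPQ).symm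
  rw [hQP] at hAeq
  have hsB : FractionalIdeal.spanSingleton R⁰ s ≤ B := by
    have h1 : (P : FractionalIdeal R⁰ K) * FractionalIdeal.spanSingleton R⁰ s ≤ P * B := by
      rw [← hAeq, FractionalIdeal.mul_le]
      intro p hp w hw
      rw [FractionalIdeal.mem_coeIdeal] at hp
      obtain ⟨p, hp, rfl⟩ := hp
      rw [FractionalIdeal.mem_spanSingleton] at hw
      obtain ⟨z, rfl⟩ := hw
      rw [hAF, ← Algebra.smul_def, smul_comm p z s]
      exact A.smul_mem z (hs p hp)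
    calc FractionalIdeal.spanSingleton R⁰ s
        = (P : FractionalIdeal R⁰ K)⁻¹ * (P * FractionalIdeal.spanSingleton R⁰ s) := by
          rw [← mul_assoc, inv_mul_cancel₀ hP0', one_mul]
      _ ≤ (P : FractionalIdeal R⁰ K)⁻¹ * (P * B) := mul_le_mul_right h1 _
      _ = B := by rw [← mul_assoc, inv_mul_cancel₀ hP0', one_mul]
  have hs1 : s ∈ AF + FractionalIdeal.spanSingleton R⁰ t :=
    hsB (FractionalIdeal.mem_spanSingleton_self _ s)
  rw [FractionalIdeal.mem_add] at hs1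
  obtain ⟨x, hx, y, hy, hxy⟩ := hs1
  rw [FractionalIdeal.mem_spanSingleton] at hy
  obtain ⟨z, rfl⟩ := hy
  refine ⟨z, ?_⟩
  rw [← hxy, add_sub_cancel_right]
  exact (hAF x).mp hx

variable {H : Type*} [Ring H] [Algebra R H]

/-- Lemma 6. -/
theorem eq_of_ker (σ : H →ₐ[R] H) (hσσ : ∀ z, σ (σ z) = z)
    (ℓ : H →ₗ[R] K) (hℓσ : ∀ z, ℓ (σ z) = ℓ z)
    (hc : ∀ c : R, c ≠ 0 → ∀ z : H, c • z = 0 → z = 0)
    (O : Subalgebra R H) (hOfg : (Subalgebra.toSubmodule O).FG)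
    (hOden : ∀ z : H, ∃ r : R, r ≠ 0 ∧ r • z ∈ O)
    (hOσ : ∀ z ∈ O, σ z ∈ O)
    (hmax : ∀ T : Subalgebra R H, O ≤ T → (Subalgebra.toSubmodule T).FG → (∀ z ∈ T, σ z ∈ T) →
      T ≤ O)
    (a b x : H) (ha : a ∈ O) (hb : b ∈ O) (hab : (a * b - b * a) * x = 1)
    (I : Submodule R H) (hIO : ∀ z ∈ I, ∀ w ∈ O, z * w ∈ I)
    (hOI : ∀ z ∈ O, z ∈ I) (hIσ : ∀ z ∈ I, σ z ∈ I)
    (hker : ∀ z ∈ I, ℓ z = 0 → z ∈ O) (z : H) (hz : z ∈ I) : z ∈ O := by
  by_contra hzO
  set S : Submodule R H := Subalgebra.toSubmodule O with hS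
  let S' : Submodule R I := S.comap I.subtype
  have hne : (S'.mkQ ⟨z, hz⟩ : I ⧸ S') ≠ 0 := by
    intro h
    rw [Submodule.mkQ_apply, Submodule.Quotient.mk_eq_zero] at h
    exact hzO h
  obtain ⟨P, hP, hzP⟩ := exists_le_isAssociatedPrime_of_isNoetherianRing R _ hne
  rw [isAssociatedPrime_iff] at hP
  obtain ⟨hPprime, y', hy'⟩ := hP
  obtain ⟨⟨y, hyI⟩, rfl⟩ := S'.mkQ_surjective y'
  have hPy : ∀ r : R, r ∈ P ↔ r • y ∈ O := by
    intro r
    rw [hy', Submodule.mem_colon_singleton, Submodule.mem_bot, ← map_smul, Submodule.mkQ_apply,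
      Submodule.Quotient.mk_eq_zero]
    exact Iff.rfl
  have hyO : y ∉ O := by
    intro h
    apply hPprime.ne_top
    rw [Ideal.eq_top_iff_one, hPy, one_smul]
    exact h
  obtain ⟨c, hc0, hcP⟩ : ∃ c : R, c ≠ 0 ∧ c ∈ P := by
    obtain ⟨r, hr0, hr⟩ := hOden y
    exact ⟨r, hr0, (hPy r).mpr hr⟩
  have hP0 : P ≠ ⊥ := by
    rintro rfl
    exact hc0 (by simpa using hcP)
  have hPmax : P.IsMaximal := hPprime.isMaximal hP0
  have hAfg : (S.map ℓ).FG := hOfg.map ℓ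
  have hℓ : ∀ w ∈ I, ℓ w ∈ S.map ℓ → w ∈ O := by
    rintro w hw ⟨v, hv, hvw⟩
    have h1 : w - v ∈ O := by
      refine hker _ (I.sub_mem hw (hOI v hv)) ?_
      rw [map_sub, hvw, sub_self]
    have := O.add_mem h1 hv
    simpa using this
  refine no_char σ hσσ O hOfg hOσ hmax P c hcP (hc c hc0) y hyO (fun r hr => (hPy r).mp hr) ?_ ?_
    a b x ha hb hab
  · intro w hw
    have hyw : y * w ∈ I := hIO y hyI w hw
    obtain ⟨r, hr⟩ := dim_one (S.map ℓ) hAfg P hP0 (ℓ (y * w)) (ℓ y)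
      (fun p hp => by
        rw [← map_smul]
        exact Submodule.mem_map_of_mem ((hPy p).mp hp))
      (fun p hp => by
        rw [← map_smul]
        refine Submodule.mem_map_of_mem ?_
        rw [← smul_mul_assoc]
        exact O.mul_mem ((hPy p).mp hp) hw)
      (fun h => hyO (hℓ y hyI h))
    refine ⟨r, hℓ _ (I.sub_mem hyw (I.smul_mem r hyI)) ?_⟩
    rwa [map_sub, map_smul]
  · refine hker _ (I.sub_mem (hIσ y hyI) hyI) ?_
    rw [map_sub, hℓσ, sub_self]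

end

end Pool.Agent.V11280.TE
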