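import Mathlib
import Pool.Agent.V11280.TE.Lem6

set_option autoImplicit false

namespace Pool.Agent.V11280.TE

open Submodule

/-- The properties of a quaternion algebra with its standard involution that are used. -/
structure QData (K H : Type*) [Field K] [Ring H] [Algebra K H] [StarRing H] where
  trd : H →ₗ[K] K
  nrd : H → K
  add_star : ∀ z : H, z + star z = algebraMap K H (trd z)
  mul_star : ∀ z : H, z * star z = algebraMap K H (nrd z)
  star_alg : ∀ r : K, star (algebraMap K H r) = algebraMap K H r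
  inj : Function.Injective (algebraMap K H)
  prime : ∀ x y : H, (∀ z, x * z * y = 0) → x = 0 ∨ y = 0
  comm : ∃ x y z : H, (x * y - y * x) * z = 1
  basis : ∃ e f : Fin 4 → H, ∀ z, z = ∑ m, trd (z * e m) • f m

/-- the involution `z ↦ u z̄ u⁻¹` -/
def dag {H : Type*} [Ring H] [StarRing H] (u : Hˣ) (z : H) : H := u * star z * ↑u⁻¹

section dagbasic

variable {K H : Type*} [Field K] [Ring H] [Algebra K H] [StarRing H] (u : Hˣ)

theorem dag_mul (x y : H) : dag u (x * y) = dag u y * dag u x := by
  unfold dag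
  rw [star_mul]
  simp only [mul_assoc, Units.inv_mul_cancel_left]

theorem dag_add (x y : H) : dag u (x + y) = dag u x + dag u y := by
  unfold dag
  rw [star_add]; noncomm_ring

theorem dag_sub (x y : H) : dag u (x - y) = dag u x - dag u y := by
  unfold dag
  rw [star_sub]; noncomm_ring

theorem dag_zero : dag u (0 : H) = 0 := by
  unfold dag
  simp

theorem dag_one : dag u (1 : H) = 1 := by
  unfold dag
  simp

variable {u}

theorem star_inv_of (hu : star (u : H) = -u) : star (↑u⁻¹ : H) = -↑u⁻¹ := by
  have h1 : star (u : H) * star (↑u⁻¹ : H) = 1 := by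
    rw [← star_mul, Units.inv_mul, star_one]
  rw [hu, neg_mul] at h1
  have h2 : (u : H) * star (↑u⁻¹ : H) = -1 := by rw [← h1, neg_neg]
  calc star (↑u⁻¹ : H) = ↑u⁻¹ * ((u : H) * star (↑u⁻¹ : H)) := by
        rw [Units.inv_mul_cancel_left]
    _ = -↑u⁻¹ := by rw [h2, mul_neg, mul_one]

theorem dag_dag (hu : star (u : H) = -u) (z : H) : dag u (dag u z) = z := by
  unfold dag
  rw [star_mul, star_mul, star_star, hu, star_inv_of hu]
  simp only [mul_neg, neg_mul, neg_neg, mul_assoc, Units.mul_inv, mul_one,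
    Units.mul_inv_cancel_left]

end dagbasic

namespace QData

variable {K H : Type*} [Field K] [Ring H] [Algebra K H] [StarRing H] (Q : QData K H)

include Q

theorem star_eq (z : H) : star z = algebraMap K H (Q.trd z) - z := by
  rw [← Q.add_star]; abel

theorem star_mul_self' (z : H) : star z * z = algebraMap K H (Q.nrd z) := by
  rw [← Q.mul_star, Q.star_eq, sub_mul, mul_sub, Algebra.commutes]

theorem nrd_mul (x y : H) : Q.nrd (x * y) = Q.nrd x * Q.nrd y := by
  apply Q.inj
  rw [← Q.mul_star, star_mul, map_mul, ← Q.mul_star x]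
  calc x * y * (star y * star x) = x * (y * star y) * star x := by simp only [mul_assoc]
    _ = x * star x * algebraMap K H (Q.nrd y) := by
      rw [Q.mul_star y, mul_assoc, Algebra.commutes, ← mul_assoc]

theorem trd_comm (x y : H) : Q.trd (x * y) = Q.trd (y * x) := by
  apply Q.inj
  rw [← Q.add_star, ← Q.add_star, star_mul, star_mul, Q.star_eq x, Q.star_eq y]
  have h1 := Algebra.commutes (Q.trd x) y
  have h2 := Algebra.commutes (Q.trd y) x
  have h3 := Algebra.commutes (Q.trd x) (algebraMap K H (Q.trd y))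
  simp only [sub_mul, mul_sub, h1, h2, h3]
  abel

theorem nrd_one : Q.nrd 1 = 1 := by
  apply Q.inj
  rw [← Q.mul_star, star_one, one_mul, map_one]

theorem dag_algebraMap (u : Hˣ) (r : K) : dag u (algebraMap K H r) = algebraMap K H r := by
  unfold dag
  rw [Q.star_alg, ← Algebra.commutes, mul_assoc, Units.mul_inv, mul_one]

theorem dag_smul (u : Hˣ) (r : K) (z : H) : dag u (r • z) = r • dag u z := by
  rw [Algebra.smul_def, dag_mul, Q.dag_algebraMap, ← Algebra.commutes, ← Algebra.smul_def]

/-- a quaternion of nonzero norm is invertible -/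
theorem isUnit_of (z : H) (hz : Q.nrd z ≠ 0) : IsUnit z := by
  refine ⟨⟨z, (Q.nrd z)⁻¹ • star z, ?_, ?_⟩, rfl⟩
  · rw [mul_smul_comm, Q.mul_star, Algebra.smul_def, ← map_mul, inv_mul_cancel₀ hz, map_one]
  · rw [smul_mul_assoc, Q.star_mul_self', Algebra.smul_def, ← map_mul, inv_mul_cancel₀ hz, map_one]

theorem nrd_unit_ne (v : Hˣ) : Q.nrd (v : H) ≠ 0 := by
  intro h
  have h1 := Q.nrd_mul (v : H) (↑v⁻¹ : H)
  rw [Units.mul_inv, Q.nrd_one, h, zero_mul] at h1
  exact one_ne_zero h1

/-- `σ z = u z u⁻¹ = star (dag z)` -/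
theorem star_dag (u : Hˣ) (hu : star (u : H) = -u) (z : H) :
    star (dag u z) = u * z * ↑u⁻¹ := by
  unfold dag
  rw [star_mul, star_mul, star_star, hu, star_inv_of hu, neg_mul, mul_neg, mul_neg, neg_neg]
  -- `u⁻¹ z u = u z u⁻¹`
  have h1 : (u : H) * u = algebraMap K H (-Q.nrd u) := by
    rw [map_neg, ← Q.mul_star, hu, mul_neg, neg_neg]
  have h2 : (u : H) * u * z = z * (u * u) := by rw [h1, Algebra.commutes]
  calc (↑u⁻¹ : H) * (z * ↑u) = ↑u⁻¹ * (z * (u * u)) * ↑u⁻¹ := by
        simp only [mul_assoc, Units.mul_inv, mul_one]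
    _ = ↑u⁻¹ * (u * u * z) * ↑u⁻¹ := by rw [h2]
    _ = u * z * ↑u⁻¹ := by simp only [mul_assoc, Units.inv_mul_cancel_left]

theorem sig_sig (u : Hˣ) (hu : star (u : H) = -u) (z : H) :
    (u : H) * (u * z * ↑u⁻¹) * ↑u⁻¹ = z := by
  have h1 : (u : H) * u = algebraMap K H (-Q.nrd u) := by
    rw [map_neg, ← Q.mul_star, hu, mul_neg, neg_neg]
  have h2 : (u : H) * u * z = z * (u * u) := by rw [h1, Algebra.commutes]
  calc (u : H) * (u * z * ↑u⁻¹) * ↑u⁻¹ = u * u * z * ↑u⁻¹ * ↑u⁻¹ := by simp only [mul_assoc]
    _ = z * (u * u) * ↑u⁻¹ * ↑u⁻¹ := by rw [h2]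
    _ = z := by simp only [mul_assoc, Units.mul_inv, mul_one]

theorem trd_eq_zero_iff (u : Hˣ) (hu : star (u : H) = -u) (z : H) :
    Q.trd (z * u) = 0 ↔ dag u z = z := by
  have h1 : algebraMap K H (Q.trd (z * u)) = z * u - u * star z := by
    rw [← Q.add_star, star_mul, hu]; noncomm_ring
  constructor
  · intro h
    rw [h, map_zero] at h1
    unfold dag
    have h2 : (u : H) * star z = z * u := (sub_eq_zero.mp h1.symm).symm
    rw [h2, mul_assoc, Units.mul_inv, mul_one]
  · intro h
    apply Q.inj
    rw [h1, map_zero, sub_eq_zero]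
    conv_lhs => rw [← h]
    unfold dag
    rw [mul_assoc, Units.inv_mul, mul_one]

end QData

section orders

variable {K H : Type*} [Field K] [Ring H] [Algebra K H] [StarRing H]
variable {R : Type*} [CommRing R] [Algebra R K] [Algebra R H] [IsScalarTower R K H]

/-- conjugation by `u` as an algebra endomorphism -/
def sig (R : Type*) [CommRing R] [Algebra R H] (u : Hˣ) : H →ₐ[R] H where
  toFun z := u * z * ↑u⁻¹
  map_one' := by simp
  map_mul' x y := by simp only [mul_assoc, Units.inv_mul_cancel_left]
  map_zero' := by simp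
  map_add' x y := by rw [mul_add, add_mul]
  commutes' r := by rw [← Algebra.commutes, mul_assoc, Units.mul_inv, mul_one]

omit [StarRing H] in
theorem sig_apply (u : Hˣ) (z : H) : sig R u z = u * z * ↑u⁻¹ := rfl

/-- elements of an order have integral reduced trace -/
theorem trd_mem [IsDomain R] [IsIntegrallyClosed R] [IsFractionRing R K] (Q : QData K H)
    (O : Subalgebra R H)
    (hfg : (Subalgebra.toSubmodule O).FG) (z : H) (hz : z ∈ O) :
    ∃ r : R, algebraMap R K r = Q.trd z := by
  have hzi : IsIntegral R z := IsIntegral.of_mem_of_fg O hfg z hz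
  have hsi : IsIntegral R (star z) := by
    obtain ⟨p, hp, hpz⟩ := hzi
    refine ⟨p, hp, ?_⟩
    rw [Polynomial.eval₂_eq_sum_range] at hpz ⊢
    rw [← star_zero H, ← hpz, star_sum]
    refine Finset.sum_congr rfl fun i _ => ?_
    rw [star_mul, star_pow, IsScalarTower.algebraMap_apply R K H, Q.star_alg, Algebra.commutes]
  set t := Q.trd z with ht
  let A := Algebra.adjoin K {z}
  let z' : A := ⟨z, Algebra.self_mem_adjoin_singleton K z⟩
  let s' : A := algebraMap K A t - z'
  have hs' : (s' : H) = star z := by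
    rw [Q.star_eq]; rfl
  have hcomm : ∀ x y : A, x * y = y * x := by
    rintro ⟨x, hx⟩ ⟨y, hy⟩
    apply Subtype.ext
    have h1 : Commute z y := Algebra.commute_of_mem_adjoin_self hy
    exact (Algebra.commute_of_mem_adjoin_singleton_of_commute hx h1.symm).symm
  let _ : CommRing A := { (inferInstance : Ring A) with mul_comm := hcomm }
  have hAval : Function.Injective (A.val.restrictScalars R) := Subtype.val_injective
  have hz'i : IsIntegral R z' := (isIntegral_algHom_iff (A.val.restrictScalars R) hAval).mp hzi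
  have hs'i : IsIntegral R s' := by
    refine (isIntegral_algHom_iff (A.val.restrictScalars R) hAval).mp ?_
    have : (A.val.restrictScalars R) s' = star z := hs'
    rw [this]
    exact hsi
  have hsum : IsIntegral R (z' + s') := hz'i.add hs'i
  have h2 : z' + s' = algebraMap K A t := by
    apply Subtype.ext
    have : ((z' + s' : A) : H) = z + star z := by rw [← hs']; rfl
    rw [this, Q.add_star]
    rfl
  rw [h2] at hsum
  have h3 : IsIntegral R t := by
    refine (isIntegral_algHom_iff (IsScalarTower.toAlgHom R K H) Q.inj).mp ?_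
    have := hsum.map (A.val.restrictScalars R)
    exact this
  exact IsIntegrallyClosed.isIntegral_iff.mp h3

/-- elements of an order are stable under the standard involution -/
theorem star_mem [IsDomain R] [IsIntegrallyClosed R] [IsFractionRing R K] (Q : QData K H)
    (O : Subalgebra R H)
    (hfg : (Subalgebra.toSubmodule O).FG) (z : H) (hz : z ∈ O) : star z ∈ O := by
  obtain ⟨r, hr⟩ := trd_mem Q O hfg z hz
  rw [Q.star_eq, ← hr, ← IsScalarTower.algebraMap_apply]
  exact O.sub_mem (O.algebraMap_mem r) hz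

end orders

end Pool.Agent.V11280.TE
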