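import Mathlib
import Pool.Agent.V11280.TE.Quat

set_option autoImplicit false

namespace Pool.Agent.V11280.TE

open Submodule

section

variable {K H : Type*} [Field K] [Ring H] [Algebra K H] [StarRing H]
variable {R : Type*} [CommRing R] [Algebra R K] [Algebra R H] [IsScalarTower R K H]

/-- `Φ` is a Euclidean function for `O` -/
def EucFun {W : Type*} [LinearOrder W] (u : Hˣ) (O : Subalgebra R H) (Φ : H → W) : Prop :=
  ∀ x ∈ O, ∀ y ∈ O, y ≠ 0 → dag u (x * dag u y) = x * dag u y →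
    ∃ q ∈ O, dag u q = q ∧ Φ (x - y * q) < Φ y

omit [StarRing H] in
theorem smul_eq (r : R) (z : H) : r • z = (algebraMap R K r) • z := by
  rw [Algebra.smul_def, Algebra.smul_def, ← IsScalarTower.algebraMap_apply]

theorem dag_smul_R (Q : QData K H) (u : Hˣ) (r : R) (z : H) : dag u (r • z) = r • dag u z := by
  rw [smul_eq (K := K), Q.dag_smul, ← smul_eq]

/-- passing to an overorder -/
theorem EucFun.over {W : Type*} [LinearOrder W] (Q : QData K H) (u : Hˣ) (O₀ O : Subalgebra R H)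
    (Φ : H → W) (h : EucFun u O₀ Φ) (c : R) (hc : ∀ z ∈ O, c • z ∈ O₀)
    (hle : O₀ ≤ O) (hc0 : ∀ z : H, c • z = 0 → z = 0) : EucFun u O (fun z => Φ (c • z)) := by
  intro x hx y hy hy0 hxy
  obtain ⟨q, hq, hqd, hlt⟩ := h (c • x) (hc x hx) (c • y) (hc y hy) (fun h => hy0 (hc0 y h)) (by
    rw [dag_smul_R Q, smul_mul_assoc, mul_smul_comm, dag_smul_R Q, dag_smul_R Q, hxy])
  refine ⟨q, hle hq, hqd, ?_⟩
  rw [smul_mul_assoc, ← smul_sub] at hlt
  exact hlt

/-- the set of values over the unit orbit -/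
def orb {W : Type*} (O : Subalgebra R H) (Φ : H → W) (z : H) : Set W :=
  {w | ∃ e ∈ O, ∃ e' ∈ O, e * e' = 1 ∧ e' * e = 1 ∧ w = Φ (z * e)}

omit [StarRing H] in
theorem orb_ne {W : Type*} (O : Subalgebra R H) (Φ : H → W) (z : H) : (orb O Φ z).Nonempty :=
  ⟨Φ (z * 1), 1, O.one_mem, 1, O.one_mem, mul_one 1, mul_one 1, rfl⟩

/-- making a Euclidean function invariant under units on the right -/
noncomputable def inv {W : Type*} [LinearOrder W] [WellFoundedLT W] (O : Subalgebra R H)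
    (Φ : H → W) (z : H) : W :=
  (wellFounded_lt (α := W)).min (orb O Φ z) (orb_ne O Φ z)

omit [StarRing H] in
theorem inv_mem {W : Type*} [LinearOrder W] [WellFoundedLT W] (O : Subalgebra R H)
    (Φ : H → W) (z : H) : inv O Φ z ∈ orb O Φ z := WellFounded.min_mem _ _ _

omit [StarRing H] in
theorem inv_le {W : Type*} [LinearOrder W] [WellFoundedLT W] (O : Subalgebra R H)
    (Φ : H → W) (z : H) (w : W) (hw : w ∈ orb O Φ z) : inv O Φ z ≤ w :=
  not_lt.mp ((wellFounded_lt (α := W)).not_lt_min (orb O Φ z) hw)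

omit [StarRing H] in
theorem inv_mul_le {W : Type*} [LinearOrder W] [WellFoundedLT W] (O : Subalgebra R H)
    (Φ : H → W) (z e e' : H) (he : e ∈ O) (he' : e' ∈ O) (h1 : e * e' = 1) (h2 : e' * e = 1) :
    inv O Φ (z * e) ≤ inv O Φ z := by
  obtain ⟨f, hf, f', hf', h3, h4, h5⟩ := inv_mem O Φ z
  rw [h5]
  refine inv_le O Φ _ _ ⟨e' * f, O.mul_mem he' hf, f' * e, O.mul_mem hf' he, ?_, ?_, ?_⟩
  · rw [mul_assoc, ← mul_assoc f, h3, one_mul, h2]
  · rw [mul_assoc, ← mul_assoc e, h1, one_mul, h4]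
  · rw [mul_assoc, ← mul_assoc e, h1, one_mul]

omit [StarRing H] in
theorem inv_mul {W : Type*} [LinearOrder W] [WellFoundedLT W] (O : Subalgebra R H)
    (Φ : H → W) (z e e' : H) (he : e ∈ O) (he' : e' ∈ O) (h1 : e * e' = 1) (h2 : e' * e = 1) :
    inv O Φ (z * e) = inv O Φ z := by
  apply le_antisymm (inv_mul_le O Φ z e e' he he' h1 h2)
  have := inv_mul_le O Φ (z * e) e' e he' he h2 h1
  rwa [mul_assoc, h1, mul_one] at this

theorem EucFun.inv {W : Type*} [LinearOrder W] [WellFoundedLT W] (u : Hˣ)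
    (hu : star (u : H) = -u) (O : Subalgebra R H) (hOd : ∀ z ∈ O, dag u z ∈ O) (Φ : H → W)
    (h : EucFun u O Φ) : EucFun u O (inv O Φ) := by
  intro x hx y hy hy0 hxy
  obtain ⟨e, he, e', he', h1, h2, h3⟩ := inv_mem O Φ y
  have hd1 : dag u e' * dag u e = 1 := by rw [← dag_mul, h1, dag_one]
  have hd2 : dag u e * dag u e' = 1 := by rw [← dag_mul, h2, dag_one]
  obtain ⟨q, hq, hqd, hlt⟩ := h (x * dag u e') (O.mul_mem hx (hOd _ he')) (y * e)
    (O.mul_mem hy he) (fun h => hy0 (by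
      have : y * e * e' = 0 := by rw [h, zero_mul]
      rwa [mul_assoc, h1, mul_one] at this)) (by
      rw [dag_mul u y e, ← mul_assoc, mul_assoc x, hd1, mul_one, hxy])
  refine ⟨e * q * dag u e, O.mul_mem (O.mul_mem he hq) (hOd _ he), ?_, ?_⟩
  · rw [dag_mul, dag_mul, dag_dag hu, hqd, mul_assoc]
  · rw [h3]
    refine lt_of_le_of_lt (inv_le O Φ _ _ ⟨dag u e', hOd _ he', dag u e, hOd _ he, hd1, hd2, ?_⟩) hlt
    rw [sub_mul]
    have : y * (e * q * dag u e) * dag u e' = y * e * q := by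
      simp only [mul_assoc, hd2, mul_one]
    rw [this]

omit [Algebra R K] [IsScalarTower R K H] in
/-- twisting: `O'' = g O g⁻¹` -/
theorem EucFun.twist {W : Type*} [LinearOrder W] (Q : QData K H) (u : Hˣ)
    (hu : star (u : H) = -u) (O O'' : Subalgebra R H) (Φ : H → W)
    (g : Hˣ) (hO'' : ∀ z, z ∈ O'' ↔ ↑g⁻¹ * z * g ∈ O)
    (η η' : H) (hη : η ∈ O) (h1 : η * η' = 1)
    (hηd : dag u η = η) (hg : u * g * ↑u⁻¹ = g * η)
    (hΦ : ∀ z, Φ (z * η) = Φ z)
    (h : EucFun u O Φ) : EucFun u O'' (fun z => Φ (↑g⁻¹ * z * g)) := by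
  -- `g‡ = star (σ g) = star (g η)`
  have hdg : dag u (g : H) = star η * star (g : H) := by
    have := Q.star_dag u hu (g : H)
    rw [hg] at this
    rw [← star_star (dag u (g : H)), this, star_mul]
  have hn : Q.nrd η = 1 := by
    have h3 : Q.nrd ((g : H) * η) = Q.nrd (g : H) := by
      rw [← hg, Q.nrd_mul, Q.nrd_mul]
      have h4 : Q.nrd (u : H) * Q.nrd (↑u⁻¹ : H) = 1 := by
        rw [← Q.nrd_mul, Units.mul_inv, Q.nrd_one]
      calc Q.nrd (u : H) * Q.nrd (g : H) * Q.nrd (↑u⁻¹ : H)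
          = Q.nrd (u : H) * Q.nrd (↑u⁻¹ : H) * Q.nrd (g : H) := by ring
        _ = Q.nrd (g : H) := by rw [h4, one_mul]
    rw [Q.nrd_mul] at h3
    exact mul_left_cancel₀ (Q.nrd_unit_ne g) (h3.trans (mul_one _).symm)
  have hηs : η * star η = 1 := by rw [Q.mul_star, hn, map_one]
  have hηs' : star η * η = 1 := by rw [Q.star_mul_self', hn, map_one]
  -- `g η = u g u⁻¹`, `dag (g η) = star g`
  have hdgη : dag u ((g : H) * η) = star (g : H) := by
    rw [← hg, ← Q.star_dag u hu, ← star_star (dag u (star (dag u (g : H)))),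
      Q.star_dag u hu, Q.star_dag u hu, Q.sig_sig u hu]
  set n := Q.nrd (g : H) with hnn
  have hn0 : n ≠ 0 := Q.nrd_unit_ne g
  have hginv : (↑g⁻¹ : H) = n⁻¹ • star (g : H) := by
    calc (↑g⁻¹ : H) = (n⁻¹ * n) • ↑g⁻¹ := by rw [inv_mul_cancel₀ hn0, one_smul]
      _ = n⁻¹ • (algebraMap K H n * ↑g⁻¹) := by rw [mul_smul, Algebra.smul_def n]
      _ = n⁻¹ • star (g : H) := by
        rw [hnn, ← Q.star_mul_self', mul_assoc, Units.mul_inv, mul_one]
  intro x hx y hy hy0 hxy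
  set x₁ := (↑g⁻¹ : H) * x * g with hx₁
  set y₁ := (↑g⁻¹ : H) * y * g with hy₁
  have ex : x = g * x₁ * ↑g⁻¹ := by
    rw [hx₁]; simp only [mul_assoc, Units.mul_inv_cancel_left, Units.mul_inv, mul_one]
  have ey : y = g * y₁ * ↑g⁻¹ := by
    rw [hy₁]; simp only [mul_assoc, Units.mul_inv_cancel_left, Units.mul_inv, mul_one]
  have hx₁O : x₁ ∈ O := (hO'' x).mp hx
  have hy₁O : y₁ ∈ O := (hO'' y).mp hy
  have hy₁0 : y₁ * η ≠ 0 := by
    intro h
    apply hy0
    have h3 : y₁ = 0 := by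
      have : y₁ * η * η' = 0 := by rw [h, zero_mul]
      rwa [mul_assoc, h1, mul_one] at this
    rw [ey, h3, mul_zero, zero_mul]
  -- the condition
  have hcond : dag u (x₁ * dag u (y₁ * η)) = x₁ * dag u (y₁ * η) := by
    -- `dag (g⁻¹) = n⁻¹ • dag (star g) = n⁻¹ • (g η)`
    have hdstar : dag u (star (g : H)) = g * η := by
      rw [← hdgη, dag_dag hu]
    have hdginv : dag u (↑g⁻¹ : H) = n⁻¹ • ((g : H) * η) := by
      rw [hginv, Q.dag_smul, hdstar]
    have e1 : x * dag u y = n⁻¹ • (g * (x₁ * dag u (y₁ * η)) * dag u (g : H)) := by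
      have e3 : dag u y = n⁻¹ • ((g : H) * η) * (dag u y₁ * dag u (g : H)) := by
        conv_lhs => rw [ey]
        rw [dag_mul, dag_mul u (g : H) y₁, hdginv]
      have e4 : dag u (y₁ * η) = η * dag u y₁ := by rw [dag_mul, hηd]
      rw [e3, e4]
      conv_lhs => rw [ex]
      rw [smul_mul_assoc, mul_smul_comm]
      congr 1
      simp only [mul_assoc, Units.inv_mul_cancel_left]
    have e2 : dag u (x * dag u y) =
        n⁻¹ • (g * dag u (x₁ * dag u (y₁ * η)) * dag u (g : H)) := by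
      rw [e1, Q.dag_smul, dag_mul u _ (dag u (g : H)), dag_mul u (g : H) _, dag_dag hu,
        mul_assoc (g : H) (dag u (x₁ * dag u (y₁ * η)))]
    rw [e2, e1] at hxy
    have hxy' := smul_right_injective H (inv_ne_zero hn0) hxy
    have hdgu : dag u (g : H) * dag u (↑g⁻¹ : H) = 1 := by
      rw [← dag_mul, Units.inv_mul, dag_one]
    have h5 : ∀ z : H, ↑g⁻¹ * (g * z * dag u (g : H)) * dag u (↑g⁻¹ : H) = z := by
      intro z
      simp only [mul_assoc, Units.inv_mul_cancel_left, hdgu, mul_one]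
    have hxy'' : (g : H) * dag u (x₁ * dag u (y₁ * η)) * dag u (g : H) =
      g * (x₁ * dag u (y₁ * η)) * dag u (g : H) := hxy'
    exact (h5 _).symm.trans ((congrArg (fun t => ↑g⁻¹ * t * dag u (↑g⁻¹ : H)) hxy'').trans (h5 _))
  obtain ⟨q, hq, hqd, hlt⟩ := h x₁ hx₁O (y₁ * η) (O.mul_mem hy₁O hη) hy₁0 hcond
  refine ⟨g * (η * q) * ↑g⁻¹, ?_, ?_, ?_⟩
  · rw [hO'']
    have : (↑g⁻¹ : H) * (g * (η * q) * ↑g⁻¹) * g = η * q := by
      simp only [mul_assoc, Units.inv_mul_cancel_left, Units.inv_mul, mul_one]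
    rw [this]
    exact O.mul_mem hη hq
  · have : (g : H) * (η * q) * ↑g⁻¹ = n⁻¹ • (g * η * q * dag u (g * η)) := by
      rw [hdgη, hginv, mul_smul_comm, ← mul_assoc (g : H)]
    rw [this, Q.dag_smul, dag_mul u _ (dag u (g * η)), dag_mul u _ q, dag_dag hu, hqd, ← mul_assoc]
  · have : (↑g⁻¹ : H) * (x - y * (g * (η * q) * ↑g⁻¹)) * g = x₁ - y₁ * η * q := by
      rw [mul_sub, sub_mul, ← hx₁, hy₁]
      congr 1
      simp only [mul_assoc, Units.inv_mul, mul_one]
    simp only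
    rw [this, ← hy₁, ← hΦ y₁]
    exact hlt

end

end Pool.Agent.V11280.TE
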