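import Mathlib
import Pool.Agent.V11280.TE.Euc

set_option autoImplicit false

namespace Pool.Agent.V11280.TE

open Submodule

section

variable {K H : Type*} [Field K] [Ring H] [Algebra K H] [StarRing H]
variable {R : Type*} [CommRing R] [IsDedekindDomain R] [Algebra R K] [IsFractionRing R K]
  [Algebra R H] [IsScalarTower R K H]

omit [IsDedekindDomain R] in
theorem smul_R_inj (_ : QData K H) (c : R) (hc : c ≠ 0) (z : H) (h : c • z = 0) : z = 0 := by
  rw [smul_eq (K := K)] at h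
  have hc' : algebraMap R K c ≠ 0 := by
    rwa [Ne, FaithfulSMul.algebraMap_eq_zero_iff]
  calc z = ((algebraMap R K c)⁻¹ * algebraMap R K c) • z := by
        rw [inv_mul_cancel₀ hc', one_smul]
    _ = 0 := by rw [mul_smul, h, smul_zero]

omit [StarRing H] in
theorem exists_den (O : Subalgebra R H) (hden : ∀ z : H, ∃ r : R, r ≠ 0 ∧ r • z ∈ O)
    (X : Submodule R H) (hX : X.FG) : ∃ c : R, c ≠ 0 ∧ ∀ x ∈ X, c • x ∈ O := by
  obtain ⟨s, rfl⟩ := hX
  classical
  induction s using Finset.induction_on with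
  | empty =>
    refine ⟨1, one_ne_zero, fun x hx => ?_⟩
    rw [Finset.coe_empty, Submodule.span_empty, Submodule.mem_bot] at hx
    rw [hx, smul_zero]
    exact O.zero_mem
  | insert a s _ ih =>
    obtain ⟨c, hc0, hc⟩ := ih
    obtain ⟨r, hr0, hr⟩ := hden a
    refine ⟨c * r, mul_ne_zero hc0 hr0, fun x hx => ?_⟩
    rw [Finset.coe_insert, Submodule.mem_span_insert] at hx
    obtain ⟨t, y, hy, rfl⟩ := hx
    rw [smul_add]
    refine O.add_mem ?_ ?_
    · rw [mul_smul, smul_comm r t a, ← mul_smul c t]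
      exact O.smul_mem hr _
    · rw [mul_comm, mul_smul]
      exact O.smul_mem (hc y hy) r

theorem main {W : Type*} [LinearOrder W] [WellFoundedLT W] (Q : QData K H) (u : Hˣ)
    (hu : star (u : H) = -u) (O : Subalgebra R H) (hOfg : (Subalgebra.toSubmodule O).FG)
    (hOden : ∀ z : H, ∃ r : R, r ≠ 0 ∧ r • z ∈ O) (hOd : ∀ z ∈ O, dag u z ∈ O)
    (hOmax : ∀ T : Subalgebra R H, O ≤ T → (Subalgebra.toSubmodule T).FG →
      (∀ z ∈ T, dag u z ∈ T) → T ≤ O)
    (Φ : H → W) (hΦ : EucFun u O Φ)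
    (O' : Subalgebra R H) (hO'fg : (Subalgebra.toSubmodule O').FG) (hO'd : ∀ z ∈ O', dag u z ∈ O')
    (hO'max : ∀ T : Subalgebra R H, O' ≤ T → (Subalgebra.toSubmodule T).FG →
      (∀ z ∈ T, dag u z ∈ T) → T ≤ O') :
    ∃ Φ' : H → W, EucFun u O' Φ' := by
  have hinj : ∀ c : R, c ≠ 0 → ∀ z : H, c • z = 0 → z = 0 := smul_R_inj Q
  -- stability under conjugation by `u`
  have hsig : ∀ T : Subalgebra R H, (Subalgebra.toSubmodule T).FG → (∀ z ∈ T, dag u z ∈ T) →
      ∀ z ∈ T, sig R u z ∈ T := by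
    intro T hT hTd z hz
    rw [sig_apply, ← Q.star_dag u hu]
    exact star_mem Q T hT _ (hTd z hz)
  have hdagof : ∀ T : Subalgebra R H, (Subalgebra.toSubmodule T).FG →
      (∀ z ∈ T, sig R u z ∈ T) → ∀ z ∈ T, dag u z ∈ T := by
    intro T hT hTs z hz
    exact hTs _ (star_mem Q T hT z hz)
  have hss : ∀ z : H, sig R u (sig R u z) = z := by
    intro z
    rw [sig_apply, sig_apply]
    exact Q.sig_sig u hu z
  have hOs := hsig O hOfg hOd
  have hO's := hsig O' hO'fg hO'd
  set S : Submodule R H := Subalgebra.toSubmodule O with hS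
  set S' : Submodule R H := Subalgebra.toSubmodule O' with hS'
  set I : Submodule R H := S' * S with hI
  have hIfg : I.FG := hO'fg.mul hOfg
  have hIO : ∀ z ∈ I, ∀ w ∈ O, z * w ∈ I := by
    intro z hz w hw
    have h1 : z * w ∈ I * S := Submodule.mul_mem_mul hz hw
    have h2 : S * S ≤ S := Submodule.mul_le.mpr fun x hx y hy => O.mul_mem hx hy
    have h3 : I * S ≤ I := by
      rw [hI, mul_assoc]
      exact mul_le_mul_right h2 S'
    exact h3 h1
  have hO'I : ∀ w ∈ O', ∀ z ∈ I, w * z ∈ I := by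
    intro w hw z hz
    have h1 : w * z ∈ S' * I := Submodule.mul_mem_mul hw hz
    have h2 : S' * S' ≤ S' := Submodule.mul_le.mpr fun x hx y hy => O'.mul_mem hx hy
    have h3 : S' * I ≤ I := by
      rw [hI, ← mul_assoc]
      exact mul_le_mul_left h2 S
    exact h3 h1
  have h1I : (1 : H) ∈ I := by
    have : (1 : H) * 1 ∈ I :=
      Submodule.mul_mem_mul (show (1 : H) ∈ S' from O'.one_mem) (show (1 : H) ∈ S from O.one_mem)
    rwa [mul_one] at this
  have hOI : ∀ z ∈ O, z ∈ I := by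
    intro z hz
    have := hIO 1 h1I z hz
    rwa [one_mul] at this
  have hIs : ∀ z ∈ I, sig R u z ∈ I := by
    intro z hz
    have hle : I.map (sig R u).toLinearMap ≤ I := by
      rw [hI, Submodule.map_mul]
      refine mul_le_mul' ?_ ?_
      · rintro _ ⟨m, hm, rfl⟩
        exact hO's m hm
      · rintro _ ⟨m, hm, rfl⟩
        exact hOs m hm
    exact hle ⟨z, hz, rfl⟩
  obtain ⟨c, hc0, hc⟩ := exists_den O hOden I hIfg
  -- the minimal element
  obtain ⟨b, hbI, hb0, hbmin⟩ : ∃ b ∈ I, b ≠ 0 ∧ ∀ b' ∈ I, b' ≠ 0 → Φ (c • b) ≤ Φ (c • b') := by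
    let T : Set W := {w | ∃ b ∈ I, b ≠ 0 ∧ w = Φ (c • b)}
    have h10 : (1 : H) ≠ 0 := by
      intro h
      have h2 : algebraMap K H 1 = algebraMap K H 0 := by rw [map_one, map_zero, h]
      exact one_ne_zero (Q.inj h2)
    have hTne : T.Nonempty := ⟨_, 1, h1I, h10, rfl⟩
    obtain ⟨b, hbI, hb0, hb⟩ := (wellFounded_lt (α := W)).min_mem T hTne
    refine ⟨b, hbI, hb0, fun b' hb' hb'0 => ?_⟩
    rw [← hb]
    exact not_lt.mp ((wellFounded_lt (α := W)).not_lt_min T ⟨b', hb', hb'0, rfl⟩)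
  -- the claim
  have hclaim : ∀ a ∈ I, dag u (a * dag u b) = a * dag u b → ∃ q ∈ O, dag u q = q ∧ a = b * q := by
    intro a haI ha
    obtain ⟨q, hq, hqd, hlt⟩ := hΦ (c • a) (hc a haI) (c • b) (hc b hbI)
      (fun h => hb0 (hinj c hc0 b h)) (by
        rw [dag_smul_R Q, smul_mul_assoc, mul_smul_comm, dag_smul_R Q, dag_smul_R Q, ha])
    refine ⟨q, hq, hqd, ?_⟩
    rw [smul_mul_assoc, ← smul_sub] at hlt
    by_contra hne
    exact absurd (hbmin _ (I.sub_mem haI (hIO b hbI q hq)) (sub_ne_zero.mpr hne)) (not_le.mpr hlt)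
  -- `σ b * b‡ = nrd b`
  have hsb : u * b * ↑u⁻¹ * dag u b = algebraMap K H (Q.nrd b) := by
    unfold dag
    have : (u : H) * b * ↑u⁻¹ * (u * star b * ↑u⁻¹) = u * (b * star b) * ↑u⁻¹ := by
      simp only [mul_assoc, Units.inv_mul_cancel_left]
    rw [this, Q.mul_star, ← Algebra.commutes, mul_assoc, Units.mul_inv, mul_one]
  -- `b` is invertible
  have hbn : Q.nrd b ≠ 0 := by
    intro hn
    rw [hn, map_zero] at hsb
    have h1 : ∀ z : H, star b * z * (u * b * ↑u⁻¹) = 0 := by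
      intro z
      obtain ⟨r, hr0, hr⟩ := hOden (z * (u * b * ↑u⁻¹))
      obtain ⟨q, -, -, hq⟩ := hclaim (r • (z * (u * b * ↑u⁻¹))) (hOI _ hr) (by
        rw [smul_mul_assoc, mul_assoc z, hsb, mul_zero, smul_zero, dag_zero])
      have h2 : star b * (r • (z * (u * b * ↑u⁻¹))) = 0 := by
        rw [hq, ← mul_assoc, Q.star_mul_self', hn, map_zero, zero_mul]
      rw [mul_smul_comm, ← mul_assoc] at h2
      exact hinj r hr0 _ h2
    rcases Q.prime _ _ h1 with h | h
    · apply hb0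
      rw [← star_star b, h, star_zero]
    · apply hb0
      calc b = ↑u⁻¹ * (u * b * ↑u⁻¹) * u := by
            simp only [mul_assoc, Units.inv_mul_cancel_left, Units.inv_mul, mul_one]
        _ = 0 := by rw [h, mul_zero, zero_mul]
  obtain ⟨g, rfl⟩ := Q.isUnit_of b hbn
  obtain ⟨η, hη, hηd, hg⟩ := hclaim (sig R u g) (hIs _ hbI) (by
    rw [sig_apply, hsb, Q.dag_algebraMap])
  have hg' : u * g * ↑u⁻¹ = (g : H) * η := hg
  set η' := sig R u η with hη'
  have hη'O : η' ∈ O := hOs η hη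
  have h1 : η * η' = 1 := by
    have h2 : (g : H) * (η * η') = g * 1 := by
      rw [← mul_assoc, ← hg, hη', ← map_mul, ← hg, hss, mul_one]
    exact g.isUnit.mul_left_cancel h2
  have h2 : η' * η = 1 := by
    have h3 : sig R u (η * η') = 1 := by rw [h1, map_one]
    rwa [map_mul, hη', hss] at h3
  -- the conjugate order
  let O'' : Subalgebra R H := O.comap (sig R g⁻¹)
  have hO'' : ∀ z, z ∈ O'' ↔ ↑g⁻¹ * z * g ∈ O := by
    intro z
    rw [Subalgebra.mem_comap, sig_apply, inv_inv]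
  have hconj : ∀ z, (g : H) * z * ↑g⁻¹ ∈ O'' ↔ z ∈ O := by
    intro z
    rw [hO'']
    have : (↑g⁻¹ : H) * (g * z * ↑g⁻¹) * g = z := by
      simp only [mul_assoc, Units.inv_mul_cancel_left, Units.inv_mul, mul_one]
    rw [this]
  have hO''fg : (Subalgebra.toSubmodule O'').FG := by
    have : Subalgebra.toSubmodule O'' = S.map (sig R g).toLinearMap := by
      ext z
      rw [Submodule.mem_map]
      constructor
      · intro hz
        refine ⟨↑g⁻¹ * z * g, (hO'' z).mp hz, ?_⟩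
        change (g : H) * (↑g⁻¹ * z * g) * ↑g⁻¹ = z
        simp only [mul_assoc, Units.mul_inv_cancel_left, Units.mul_inv, mul_one]
      · rintro ⟨y, hy, rfl⟩
        exact (hconj y).mpr hy
    rw [this]
    exact hOfg.map _
  have hsg : ∀ z : H, sig R u (g * z * ↑g⁻¹) = g * (η * sig R u z * η') * ↑g⁻¹ := by
    intro z
    have h3 : sig R u (↑g⁻¹ : H) = η' * ↑g⁻¹ := by
      have h4 : sig R u (g : H) * sig R u (↑g⁻¹ : H) = 1 := by
        rw [← map_mul, Units.mul_inv, map_one]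
      rw [hg] at h4
      calc sig R u (↑g⁻¹ : H) = η' * ↑g⁻¹ * (g * η * sig R u (↑g⁻¹ : H)) := by
            simp only [mul_assoc, Units.inv_mul_cancel_left]
            rw [← mul_assoc η' η, h2, one_mul]
        _ = η' * ↑g⁻¹ := by rw [h4, mul_one]
    rw [map_mul, map_mul, hg, h3]
    simp only [mul_assoc]
  have hO''s : ∀ z ∈ O'', sig R u z ∈ O'' := by
    intro z hz
    have e : z = g * (↑g⁻¹ * z * g) * ↑g⁻¹ := by
      simp only [mul_assoc, Units.mul_inv_cancel_left, Units.mul_inv, mul_one]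
    rw [e, hsg, hconj]
    exact O.mul_mem (O.mul_mem hη (hOs _ ((hO'' z).mp hz))) hη'O
  have hO''den : ∀ z : H, ∃ r : R, r ≠ 0 ∧ r • z ∈ O'' := by
    intro z
    obtain ⟨r, hr0, hr⟩ := hOden (↑g⁻¹ * z * g)
    refine ⟨r, hr0, (hO'' _).mpr ?_⟩
    rwa [mul_smul_comm, smul_mul_assoc]
  have hO''max : ∀ T : Subalgebra R H, O'' ≤ T → (Subalgebra.toSubmodule T).FG →
      (∀ z ∈ T, sig R u z ∈ T) → T ≤ O'' := by
    intro T hT hTfg hTs
    let T' : Subalgebra R H := T.comap (sig R g)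
    have hT' : ∀ z, z ∈ T' ↔ (g : H) * z * ↑g⁻¹ ∈ T := by
      intro z
      rw [Subalgebra.mem_comap, sig_apply]
    have hT'fg : (Subalgebra.toSubmodule T').FG := by
      have : Subalgebra.toSubmodule T' = (Subalgebra.toSubmodule T).map (sig R g⁻¹).toLinearMap := by
        ext z
        rw [Submodule.mem_map]
        constructor
        · intro hz
          refine ⟨g * z * ↑g⁻¹, (hT' z).mp hz, ?_⟩
          change (↑g⁻¹ : H) * (g * z * ↑g⁻¹) * ↑(g⁻¹)⁻¹ = z
          rw [inv_inv]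
          simp only [mul_assoc, Units.inv_mul_cancel_left, Units.inv_mul, mul_one]
        · rintro ⟨y, hy, rfl⟩
          refine (hT' _).mpr ?_
          change (g : H) * ((↑g⁻¹ : H) * y * ↑(g⁻¹)⁻¹) * ↑g⁻¹ ∈ T
          rw [inv_inv]
          simp only [mul_assoc, Units.mul_inv_cancel_left, Units.mul_inv, mul_one]
          exact hy
      rw [this]
      exact hTfg.map _
    have hOT' : O ≤ T' := by
      intro z hz
      exact (hT' z).mpr (hT ((hconj z).mpr hz))
    have hT's : ∀ z ∈ T', sig R u z ∈ T' := by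
      intro z hz
      have h3 := hTs _ ((hT' z).mp hz)
      rw [hsg] at h3
      have h4 : (g : H) * η' * ↑g⁻¹ ∈ T := hT ((hconj _).mpr hη'O)
      have h5 : (g : H) * η * ↑g⁻¹ ∈ T := hT ((hconj _).mpr hη)
      have h6 := T.mul_mem (T.mul_mem h4 h3) h5
      rw [hT']
      have e : (g : H) * η' * ↑g⁻¹ * (g * (η * sig R u z * η') * ↑g⁻¹) * (g * η * ↑g⁻¹) =
          g * sig R u z * ↑g⁻¹ := by
        simp only [mul_assoc, Units.inv_mul_cancel_left]
        rw [← mul_assoc η' η, h2, one_mul, ← mul_assoc η' η, h2, one_mul]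
      rwa [e] at h6
    have h3 : T' ≤ O := hOmax T' hOT' hT'fg (hdagof T' hT'fg hT's)
    intro z hz
    rw [hO'']
    apply h3
    rw [hT']
    simp only [mul_assoc, Units.mul_inv_cancel_left, Units.mul_inv, mul_one]
    exact hz
  -- the module
  let I'' : Submodule R H := I.comap (LinearMap.mulRight R (g : H))
  have hI'' : ∀ z, z ∈ I'' ↔ z * g ∈ I := by
    intro z
    rw [Submodule.mem_comap, LinearMap.mulRight_apply]
  have hI''O'' : ∀ z ∈ I'', z ∈ O'' := by
    obtain ⟨x, y, z, hxyz⟩ := Q.comm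
    obtain ⟨r, hr0, hr⟩ := hO''den x
    obtain ⟨s, hs0, hs⟩ := hO''den y
    have hr0' : algebraMap R K r ≠ 0 := by
      rwa [Ne, FaithfulSMul.algebraMap_eq_zero_iff]
    have hs0' : algebraMap R K s ≠ 0 := by
      rwa [Ne, FaithfulSMul.algebraMap_eq_zero_iff]
    let ℓ : H →ₗ[R] K := (Q.trd.restrictScalars R).comp (LinearMap.mulRight R (u : H))
    have hℓ : ∀ z, ℓ z = Q.trd (z * u) := fun z => rfl
    refine eq_of_ker (sig R u) hss ℓ ?_ hinj O'' hO''fg hO''den hO''s hO''max (r • x) (s • y)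
      (((algebraMap R K r)⁻¹ * (algebraMap R K s)⁻¹) • z) hr hs ?_ I'' ?_ ?_ ?_ ?_
    · intro z
      rw [hℓ, hℓ, sig_apply, mul_assoc, Units.inv_mul, mul_one, Q.trd_comm]
    · rw [smul_eq (K := K) r, smul_eq (K := K) s]
      have e : (algebraMap R K r • x * algebraMap R K s • y -
          algebraMap R K s • y * algebraMap R K r • x) =
          (algebraMap R K r * algebraMap R K s) • (x * y - y * x) := by
        rw [smul_mul_smul_comm, smul_mul_smul_comm, smul_sub, mul_comm (algebraMap R K s)]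
      rw [e, smul_mul_smul_comm, hxyz]
      have e2 : algebraMap R K r * algebraMap R K s *
          ((algebraMap R K r)⁻¹ * (algebraMap R K s)⁻¹) = 1 := by
        field_simp
      rw [e2, one_smul]
    · intro z hz w hw
      rw [hI''] at hz ⊢
      have := hIO _ hz _ ((hO'' w).mp hw)
      have e : z * g * (↑g⁻¹ * w * g) = z * w * g := by
        simp only [mul_assoc, Units.mul_inv_cancel_left]
      rwa [e] at this
    · intro z hz
      rw [hI'']
      have := hIO _ hbI _ ((hO'' z).mp hz)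
      have e : (g : H) * (↑g⁻¹ * z * g) = z * g := by
        simp only [mul_assoc, Units.mul_inv_cancel_left]
      rwa [e] at this
    · intro z hz
      rw [hI''] at hz ⊢
      have h3 := hIO _ (hIs _ hz) _ hη'O
      rw [map_mul, hg, mul_assoc, mul_assoc, h1, mul_one] at h3
      exact h3
    · intro z hz hz0
      rw [hI''] at hz
      rw [hℓ, Q.trd_eq_zero_iff u hu] at hz0
      have e : z * g * η * dag u (g : H) = Q.nrd (g : H) • z := by
        rw [mul_assoc z, ← hg', mul_assoc z, hsb, ← Algebra.commutes, ← Algebra.smul_def]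
      obtain ⟨q, hq, -, hzq⟩ := hclaim (z * g * η) (hIO _ hz _ hη) (by
        rw [e, Q.dag_smul, hz0])
      rw [hO'']
      have : (↑g⁻¹ : H) * z * g = q * η' := by
        calc (↑g⁻¹ : H) * z * g = ↑g⁻¹ * (z * g * η) * η' := by
              simp only [mul_assoc, h1, mul_one]
          _ = q * η' := by rw [hzq, ← mul_assoc, Units.inv_mul, one_mul]
      rw [this]
      exact O.mul_mem hq hη'O
  have hO'O'' : O' ≤ O'' := by
    intro z hz
    exact hI''O'' z ((hI'' z).mpr (hO'I z hz _ hbI))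
  have hO''O' : O'' ≤ O' := hO'max O'' hO'O'' hO''fg (hdagof O'' hO''fg hO''s)
  have heq : O' = O'' := le_antisymm hO'O'' hO''O'
  have hE : EucFun u O (inv O Φ) := hΦ.inv u hu O hOd Φ
  have hT := EucFun.twist Q u hu O O'' (inv O Φ) g hO'' η η' hη h1 hηd hg'
    (fun z => inv_mul O Φ z η η' hη hη'O h1 h2) hE
  rw [← heq] at hT
  exact ⟨_, hT⟩

end

end Pool.Agent.V11280.TE
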