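import Mathlib
import Pool.Agent.V11280.TE.Main

set_option autoImplicit false

namespace Pool.Agent.V11280.TE

open Submodule

section

variable {K H : Type*} [Field K] [Ring H] [Algebra K H] [StarRing H]
variable {R : Type*} [CommRing R] [IsDedekindDomain R] [Algebra R K] [IsFractionRing R K]
  [Algebra R H] [IsScalarTower R K H]

/-- the dual module of an order -/
def dual (Q : QData K H) (O : Subalgebra R H) : Submodule R H where
  carrier := {z | ∀ w ∈ O, ∃ r : R, algebraMap R K r = Q.trd (z * w)}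
  add_mem' := by
    intro x y hx hy w hw
    obtain ⟨r, hr⟩ := hx w hw
    obtain ⟨s, hs⟩ := hy w hw
    exact ⟨r + s, by rw [map_add, hr, hs, add_mul, map_add]⟩
  zero_mem' := by
    intro w _
    exact ⟨0, by rw [map_zero, zero_mul, map_zero]⟩
  smul_mem' := by
    intro c x hx w hw
    obtain ⟨r, hr⟩ := hx w hw
    refine ⟨c * r, ?_⟩
    rw [map_mul, hr, smul_mul_assoc, smul_eq (K := K), map_smul, smul_eq_mul]

theorem dual_fg (Q : QData K H) (O : Subalgebra R H)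
    (hden : ∀ z : H, ∃ r : R, r ≠ 0 ∧ r • z ∈ O) : (dual Q O).FG := by
  obtain ⟨e, f, hef⟩ := Q.basis
  obtain ⟨c, hc0, hc⟩ := exists_den O hden (Submodule.span R (Set.range e))
    (Submodule.fg_span (Set.finite_range e))
  have hS : (Submodule.span R (Set.range f)).FG := Submodule.fg_span (Set.finite_range f)
  refine fg_of_smul_le hS c (smul_R_inj Q c hc0) fun x hx => ?_
  rw [hef x, Finset.smul_sum]
  refine Submodule.sum_mem _ fun m _ => ?_
  obtain ⟨r, hr⟩ := hx (c • e m) (hc _ (Submodule.subset_span ⟨m, rfl⟩))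
  have : c • Q.trd (x * e m) • f m = r • f m := by
    rw [smul_eq (K := K) c, smul_eq (K := K) r, smul_smul, hr]
    congr 1
    rw [mul_smul_comm, smul_eq (K := K) c (x * e m), map_smul, smul_eq_mul]
  rw [this]
  exact Submodule.smul_mem _ r (Submodule.subset_span ⟨m, rfl⟩)

/-- every stable order is contained in a maximal one -/
theorem exists_max (Q : QData K H) (u : Hˣ) (O₀ : Subalgebra R H)
    (hfg : (Subalgebra.toSubmodule O₀).FG)
    (hden : ∀ z : H, ∃ r : R, r ≠ 0 ∧ r • z ∈ O₀) (hd : ∀ z ∈ O₀, dag u z ∈ O₀) :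
    ∃ O : Subalgebra R H, O₀ ≤ O ∧ (Subalgebra.toSubmodule O).FG ∧ (∀ z ∈ O, dag u z ∈ O) ∧
      ∀ T : Subalgebra R H, O ≤ T → (Subalgebra.toSubmodule T).FG → (∀ z ∈ T, dag u z ∈ T) →
        T ≤ O := by
  set X := dual Q O₀ with hX
  have hXN : IsNoetherian R X := isNoetherian_of_fg_of_noetherian X (dual_fg Q O₀ hden)
  have hle : ∀ T : Subalgebra R H, O₀ ≤ T → (Subalgebra.toSubmodule T).FG →
      Subalgebra.toSubmodule T ≤ X := by
    intro T hT hTfg z hz w hw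
    exact trd_mem Q T hTfg _ (T.mul_mem hz (hT hw))
  let F : Subalgebra R H → Submodule R X := fun T => (Subalgebra.toSubmodule T).comap X.subtype
  have hwf : WellFounded (fun A B : Submodule R X => A > B) := (inferInstance :
    WellFoundedGT (Submodule R X)).wf
  let 𝒮 : Set (Subalgebra R H) :=
    {T | O₀ ≤ T ∧ (Subalgebra.toSubmodule T).FG ∧ (∀ z ∈ T, dag u z ∈ T)}
  have hne : 𝒮.Nonempty := ⟨O₀, le_rfl, hfg, hd⟩
  obtain ⟨O, hO, hOmin⟩ := (InvImage.wf F hwf).has_min 𝒮 hne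
  refine ⟨O, hO.1, hO.2.1, hO.2.2, fun T hT hTfg hTd => ?_⟩
  have hT𝒮 : T ∈ 𝒮 := ⟨hO.1.trans hT, hTfg, hTd⟩
  have h1 : ¬ (F T > F O) := hOmin T hT𝒮
  have h2 : F O ≤ F T := fun z hz => hT hz
  have h3 : F T ≤ F O := by
    by_contra h
    exact h1 (lt_of_le_not_ge h2 h)
  intro z hz
  have hzX : z ∈ X := hle T hT𝒮.1 hTfg hz
  exact h3 (show (⟨z, hzX⟩ : X) ∈ F T from hz)

end

section quaternion

open Quaternion

variable {K : Type*} [Field K] {a b : K}

theorem quat_prime (h2 : (2 : K) ≠ 0) (ha : a ≠ 0) (hb : b ≠ 0) (x y : ℍ[K,a,b])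
    (h : ∀ z, x * z * y = 0) : x = 0 ∨ y = 0 := by
  by_contra hcon
  push Not at hcon
  obtain ⟨hx, hy⟩ := hcon
  have h4 : (4 : K) ≠ 0 := by
    have : (4 : K) = 2 * 2 := by norm_num
    rw [this]; exact mul_ne_zero h2 h2
  have key : ∀ w : ℍ[K,a,b], (y * w).re = 0 := by
    intro w
    let i : ℍ[K,a,b] := ⟨0, 1, 0, 0⟩
    let j : ℍ[K,a,b] := ⟨0, 0, 1, 0⟩
    let k : ℍ[K,a,b] := ⟨0, 0, 0, 1⟩
    have e : x * (y * w) + x * i * (y * w) * (a⁻¹ • i) + x * j * (y * w) * (b⁻¹ • j) +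
        x * k * (y * w) * ((-(a * b)⁻¹) • k) = (4 * (y * w).re) • x := by
      generalize y * w = v
      ext <;> simp [i, j, k] <;> field_simp <;> ring
    have e0 : x * (y * w) = 0 := by
      have := h 1
      rw [mul_one] at this
      rw [← mul_assoc, this, zero_mul]
    have e1 : ∀ z : ℍ[K,a,b], x * z * (y * w) = 0 := by
      intro z
      rw [← mul_assoc, h z, zero_mul]
    rw [e0, e1, e1, e1] at e
    simp only [zero_mul, add_zero] at e
    rcases smul_eq_zero.mp e.symm with h' | h'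
    · rcases mul_eq_zero.mp h' with h'' | h''
      · exact absurd h'' h4
      · exact h''
    · exact absurd h' hx
  apply hy
  have k0 := key 1
  have k1 := key ⟨0, 1, 0, 0⟩
  have k2 := key ⟨0, 0, 1, 0⟩
  have k3 := key ⟨0, 0, 0, 1⟩
  simp at k0 k1 k2 k3
  ext <;> simp_all

/-- the data for the quaternion algebra `(a, b / K)` -/
def quatData (h2 : (2 : K) ≠ 0) (ha : a ≠ 0) (hb : b ≠ 0) : QData K ℍ[K,a,b] where
  trd := (2 : K) • QuaternionAlgebra.reₗ a 0 b
  nrd z := (z * star z).re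
  add_star z := by
    rw [QuaternionAlgebra.self_add_star']
    simp [QuaternionAlgebra.coe_algebraMap]
  mul_star z := QuaternionAlgebra.mul_star_eq_coe z
  star_alg r := QuaternionAlgebra.star_coe r
  inj := QuaternionAlgebra.algebraMap_injective
  prime := quat_prime h2 ha hb
  comm := by
    refine ⟨⟨0, 1, 0, 0⟩, ⟨0, 0, 1, 0⟩, ⟨0, 0, 0, -(2 * a * b)⁻¹⟩, ?_⟩
    ext <;> simp
    field_simp
    ring
  basis := by
    refine ⟨![⟨1, 0, 0, 0⟩, ⟨0, 1, 0, 0⟩, ⟨0, 0, 1, 0⟩, ⟨0, 0, 0, 1⟩],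
      ![⟨2⁻¹, 0, 0, 0⟩, ⟨0, (2 * a)⁻¹, 0, 0⟩, ⟨0, 0, (2 * b)⁻¹, 0⟩, ⟨0, 0, 0, -(2 * a * b)⁻¹⟩], ?_⟩
    intro z
    rw [Fin.sum_univ_four]
    ext <;> simp <;> field_simp

end quaternion

end Pool.Agent.V11280.TE
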