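import Mathlib
import Pool.Agent.V11280.TE.Inst

set_option autoImplicit false

namespace Pool.Agent.V11280.TE

open Submodule

section

variable {K H : Type*} [Field K] [Ring H] [Algebra K H] [StarRing H]
variable {R : Type*} [CommRing R] [IsDedekindDomain R] [Algebra R K] [IsFractionRing R K]
  [Algebra R H] [IsScalarTower R K H]

theorem star_eq_neg_of (Q : QData K H) (u : Hˣ)
    (hu : (u : H) ∉ Set.range (algebraMap K H))
    (hu2 : (u : H) ^ 2 ∈ Set.range (algebraMap K H)) : star (u : H) = -u := by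
  obtain ⟨c, hc⟩ := hu2
  have ht : Q.trd (u : H) = 0 := by
    by_contra ht
    apply hu
    have h1 : (u : H) * u + u * star (u : H) = u * algebraMap K H (Q.trd (u : H)) := by
      rw [← mul_add, Q.add_star]
    rw [← pow_two, ← hc, Q.mul_star, ← map_add, ← Algebra.commutes, ← Algebra.smul_def] at h1
    refine ⟨(Q.trd (u : H))⁻¹ * (c + Q.nrd (u : H)), ?_⟩
    rw [map_mul, h1, ← Algebra.smul_def, smul_smul, inv_mul_cancel₀ ht, one_smul]
  rw [Q.star_eq, ht, map_zero, zero_sub]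

omit [IsDedekindDomain R] [StarRing H] in
theorem den_of_span [IsDomain R] (O : Subalgebra R H)
    (hO : Submodule.span K (O : Set H) = ⊤) (z : H) :
    ∃ r : R, r ≠ 0 ∧ r • z ∈ O := by
  have hz : z ∈ Submodule.span K (O : Set H) := by rw [hO]; trivial
  induction hz using Submodule.span_induction with
  | mem x hx => exact ⟨1, one_ne_zero, by rw [one_smul]; exact hx⟩
  | zero => exact ⟨1, one_ne_zero, by rw [smul_zero]; exact O.zero_mem⟩
  | add x y _ _ hx hy =>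
    obtain ⟨r, hr0, hr⟩ := hx
    obtain ⟨s, hs0, hs⟩ := hy
    refine ⟨r * s, mul_ne_zero hr0 hs0, ?_⟩
    rw [smul_add]
    refine O.add_mem ?_ ?_
    · rw [mul_comm, mul_smul]
      exact O.smul_mem hr s
    · rw [mul_smul]
      exact O.smul_mem hs r
  | smul c x _ hx =>
    obtain ⟨r, hr0, hr⟩ := hx
    obtain ⟨⟨n, d⟩, hnd⟩ := IsLocalization.surj (nonZeroDivisors R) c
    refine ⟨d * r, mul_ne_zero (nonZeroDivisors.coe_ne_zero d) hr0, ?_⟩
    have e : ((d : R) * r) • c • x = n • (r • x) := by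
      rw [smul_eq (K := K) ((d : R) * r), smul_eq (K := K) n, smul_eq (K := K) r,
        smul_smul, smul_smul, map_mul, ← hnd]
      congr 1
      ring
    rw [e]
    exact O.smul_mem hr n

theorem final (Q : QData K H) (u : Hˣ) (hus : star (u : H) = -u)
    (O₀ : Subalgebra R H) (hfg₀ : (Subalgebra.toSubmodule O₀).FG)
    (hsp₀ : Submodule.span K (O₀ : Set H) = ⊤)
    (hd₀ : dag u '' (O₀ : Set H) = (O₀ : Set H))
    {W : Type*} [LinearOrder W] [WellFoundedLT W] (Φ₀ : O₀ → W)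
    (hΦ₀ : ∀ x y : O₀, y ≠ 0 → ((x : H) * dag u y ∈ O₀ ∧
      dag u ((x : H) * dag u y) = (x : H) * dag u y) →
      ∃ q : O₀, ((q : H) ∈ O₀ ∧ dag u (q : H) = q) ∧ Φ₀ (x - y * q) < Φ₀ y)
    (O' : Subalgebra R H) (hfg' : (Subalgebra.toSubmodule O').FG)
    (hsp' : Submodule.span K (O' : Set H) = ⊤)
    (hd' : dag u '' (O' : Set H) = (O' : Set H))
    (hmax' : ∀ T : Subalgebra R H, ((Subalgebra.toSubmodule T).FG ∧
      Submodule.span K (T : Set H) = ⊤) ∧ dag u '' (T : Set H) = (T : Set H) → ¬ O' < T) :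
    ∃ Φ' : O' → W, ∀ x y : O', y ≠ 0 → ((x : H) * dag u y ∈ O' ∧
      dag u ((x : H) * dag u y) = (x : H) * dag u y) →
      ∃ q : O', ((q : H) ∈ O' ∧ dag u (q : H) = q) ∧ Φ' (x - y * q) < Φ' y := by
  have hstab : ∀ O : Subalgebra R H, dag u '' (O : Set H) = (O : Set H) →
      ∀ z ∈ O, dag u z ∈ O := by
    intro O hO z hz
    have h1 : dag u z ∈ dag u '' (O : Set H) := ⟨z, hz, rfl⟩
    rw [hO] at h1
    exact h1
  -- an overorder is an order
  have hover : ∀ O T : Subalgebra R H, Submodule.span K (O : Set H) = ⊤ → O ≤ T →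
      (∀ z ∈ T, dag u z ∈ T) → Submodule.span K (T : Set H) = ⊤ ∧
        dag u '' (T : Set H) = (T : Set H) := by
    intro O T hO hOT hTd
    refine ⟨?_, ?_⟩
    · rw [eq_top_iff, ← hO]
      exact Submodule.span_mono hOT
    · apply Set.Subset.antisymm
      · rintro _ ⟨z, hz, rfl⟩
        exact hTd z hz
      · intro z hz
        exact ⟨dag u z, hTd z hz, dag_dag hus z⟩
  -- the Euclidean function as a function on `H`
  classical
  let Φ : H → W := fun z => if hz : z ∈ O₀ then Φ₀ ⟨z, hz⟩ else Φ₀ 0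
  have hΦv : ∀ z (hz : z ∈ O₀), Φ z = Φ₀ ⟨z, hz⟩ := fun z hz => dif_pos hz
  have hΦ : EucFun u O₀ Φ := by
    intro x hx y hy hy0 hxy
    obtain ⟨q, hq, hlt⟩ := hΦ₀ ⟨x, hx⟩ ⟨y, hy⟩ (fun h => hy0 (congrArg Subtype.val h))
      ⟨O₀.mul_mem hx (hstab O₀ hd₀ y hy), hxy⟩
    refine ⟨q, q.2, hq.2, ?_⟩
    rw [hΦv y hy, hΦv (x - y * q) (O₀.sub_mem hx (O₀.mul_mem hy q.2))]
    exact hlt
  have hden₀ := den_of_span (K := K) O₀ hsp₀
  -- a maximal `‡`-order containing `O₀`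
  obtain ⟨O, hle, hOfg, hOd, hOmax⟩ := exists_max Q u O₀ hfg₀ hden₀ (hstab O₀ hd₀)
  have hO := hover O₀ O hsp₀ hle hOd
  obtain ⟨c, hc0, hc⟩ := exists_den O₀ hden₀ (Subalgebra.toSubmodule O) hOfg
  have hE := hΦ.over Q u O₀ O Φ c hc hle (smul_R_inj Q c hc0)
  obtain ⟨Φ', hΦ'⟩ := main Q u hus O hOfg (den_of_span (K := K) O hO.1) hOd hOmax _ hE O' hfg'
    (hstab O' hd') (by
      intro T hT hTfg hTd
      by_contra hcon
      have hT' := hover O' T hsp' hT hTd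
      exact hmax' T ⟨⟨hTfg, hT'.1⟩, hT'.2⟩ (lt_of_le_not_ge hT hcon))
  refine ⟨fun z => Φ' z, ?_⟩
  intro x y hy hxy
  obtain ⟨q, hq, hqd, hlt⟩ := hΦ' x x.2 y y.2 (fun h => hy (Subtype.ext h)) hxy.2
  exact ⟨⟨q, hq⟩, ⟨hq, hqd⟩, hlt⟩

end

end Pool.Agent.V11280.TE
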